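import Pool.Agent.Helper12.Hull

/-!
# Modular hyperbolas `x y = a` modulo `n`: vertices of the convex hull, uniformly in `a`

Part 1 extends `Pool.Agent.Helper12.FiniteSol` and `Pool.Agent.Helper12.Core` from `a = 1` to all residue
classes `a` coprime to `n`, with an explicit threshold.  Part 2: one vertex in a prescribed range of
abscissae, near the corner `(0, n)` or `(0, 0)`.  Part 3: iteration, at least `log log log n / 2` vertices.
-/

set_option autoImplicit false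

open Finset

namespace Pool.Agent.Helper39.OWN

open Pool.Agent.Helper12

/-! ### Part 1: small points -/

/-- Small points on `x z = -a` modulo `n`, finite form. -/
theorem finite_sol {n m t P H : ℕ} [NeZero n] (r : ℕ) (hr : r.Coprime n) (A : Finset ℕ)
    (hA : ∀ p ∈ A, p.Prime ∧ m + 1 < p ∧ p ≤ P ∧ ¬ p ∣ n) (hAne : A.Nonempty)
    (hH : H ≤ n) (hPn : (m + 1) * P ^ (2 * m + 1) < n)
    (hsmall : 2 * (n : ℝ) * (((m + 1) * P ^ (2 * m + 1) : ℕ) : ℝ) ^ (t + 2) < (H : ℝ) ^ (t + 2))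
    (hbig : (2 * (n : ℝ)) ^ (2 * (m + 1) * (m + 1)) * (((m + 1).factorial : ℝ) ^ 2) * n ≤
      (H : ℝ) ^ (2 * (m + 1) * (m + 1)) * (A.card : ℝ) ^ (2 * (m + 1))) :
    ∃ x z : ℕ, 1 ≤ x ∧ x ≤ P ^ 2 ∧ 1 ≤ z ∧ z ≤ (t + 2) * H ∧ n ∣ x * z + r := by
  classical
  have hn0 : 0 < n := Nat.pos_of_ne_zero (NeZero.ne n)
  have hn : (0 : ℝ) < n := by exact_mod_cast hn0
  have hR : (0 : ℝ) < A.card := by exact_mod_cast hAne.card_pos
  set u : ℕ → ZMod n := fun p => (r : ZMod n) * ((p : ZMod n))⁻¹ with hu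
  set v : ℕ → ZMod n := fun p => ((p : ZMod n))⁻¹ with hv
  have hord : addOrderOf (r : ZMod n) = n := by
    rw [ZMod.addOrderOf_coe r hn0.ne', Nat.Coprime.gcd_eq_one (Nat.coprime_comm.1 hr), Nat.div_one]
  have hE1 : (energy (m + 1) A u : ℝ) ≤ (m + 1).factorial * (A.card : ℝ) ^ (m + 1) := by
    have h1 := energy_le (n := n) (m := m) (P := P) A hA (r : ZMod n) (by rwa [hord])
    exact_mod_cast h1
  have hσ0 : (0 : ℝ) ≤ H * (A.card * A.card) / (2 * n) := by positivity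
  obtain ⟨a, ha, b, hb, f, hf, hsol⟩ := exists_solution (n := n) t H ((m + 1) * P ^ (2 * m + 1))
    A A u v hAne hAne hH hsmall (H * (A.card * A.card) / (2 * n)) hσ0
    (by rw [mul_div_cancel₀]; positivity) (by
      intro h hh
      have hE2 : (energy (m + 1) A (fun p => h * v p) : ℝ) ≤
          (m + 1).factorial * (A.card : ℝ) ^ (m + 1) := by
        have h1 := energy_le (n := n) (m := m) (P := P) A hA h hh
        exact_mod_cast h1
      have hb := bilinear_bound (n := n) m A A u v h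
      have hK : 2 * (m + 1) * (m + 1) ≠ 0 := by positivity
      refine le_of_pow_le_pow_left₀ hK hσ0 (hb.trans ?_)
      have h2 : (energy (m + 1) A (fun p => h * v p) : ℝ) * (n * energy (m + 1) A u) ≤
          ((m + 1).factorial * (A.card : ℝ) ^ (m + 1)) *
          (n * ((m + 1).factorial * (A.card : ℝ) ^ (m + 1))) := by
        gcongr
      refine (mul_le_mul_of_nonneg_left h2 (by positivity)).trans ?_
      rw [div_pow, le_div_iff₀ (by positivity)]
      have e1 : (A.card : ℝ) ^ (2 * (m + 1) * m) * (A.card : ℝ) ^ (2 * (m + 1) * m) *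
          (((m + 1).factorial * (A.card : ℝ) ^ (m + 1)) *
          (n * ((m + 1).factorial * (A.card : ℝ) ^ (m + 1)))) * (2 * n) ^ (2 * (m + 1) * (m + 1)) =
          ((2 * (n : ℝ)) ^ (2 * (m + 1) * (m + 1)) * (((m + 1).factorial : ℝ) ^ 2) * n) *
          ((A.card : ℝ) ^ (4 * (m + 1) * m + 2 * (m + 1))) := by
        ring
      have e2 : (H * ((A.card : ℝ) * A.card)) ^ (2 * (m + 1) * (m + 1)) =
          ((H : ℝ) ^ (2 * (m + 1) * (m + 1)) * (A.card : ℝ) ^ (2 * (m + 1))) *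
          ((A.card : ℝ) ^ (4 * (m + 1) * m + 2 * (m + 1))) := by
        ring
      rw [e1, e2]
      exact mul_le_mul_of_nonneg_right hbig (by positivity))
  obtain ⟨ha1, -, ha3, ha4⟩ := hA a ha
  obtain ⟨hb1, -, hb3, hb4⟩ := hA b hb
  refine ⟨a * b, ∑ i, (f i + 1), ?_, ?_, ?_, ?_, ?_⟩
  · exact Nat.mul_pos ha1.pos hb1.pos
  · rw [sq]; exact Nat.mul_le_mul ha3 hb3
  · have h1 : (f 0 + 1) ≤ ∑ i, (f i + 1) :=
      Finset.single_le_sum (f := fun i => f i + 1) (fun _ _ => Nat.zero_le _) (Finset.mem_univ 0)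
    omega
  · refine (Finset.sum_le_card_nsmul _ _ H (fun i _ => hf i)).trans ?_
    simp
  · have ha5 : (a : ZMod n) * u a = r := by
      have h1 : (a : ZMod n) * ((a : ZMod n))⁻¹ = 1 :=
        ZMod.coe_mul_inv_eq_one a ((Nat.Prime.coprime_iff_not_dvd ha1).2 ha4)
      calc (a : ZMod n) * u a = r * ((a : ZMod n) * ((a : ZMod n))⁻¹) := by rw [hu]; ring
        _ = r := by rw [h1, mul_one]
    have hb5 : (b : ZMod n) * v b = 1 :=
      ZMod.coe_mul_inv_eq_one b ((Nat.Prime.coprime_iff_not_dvd hb1).2 hb4)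
    have h1 : ((a * b * (∑ i, (f i + 1)) + r : ℕ) : ZMod n) = 0 := by
      have h2 : ((a * b * (∑ i, (f i + 1)) + r : ℕ) : ZMod n) =
          (a : ZMod n) * b * (((∑ i, (f i + 1)) : ℕ) : ZMod n) + ((a : ZMod n) * u a) *
            ((b : ZMod n) * v b) := by
        rw [ha5, hb5]; push_cast; ring
      rw [h2]
      have h3 : (a : ZMod n) * b * (((∑ i, (f i + 1)) : ℕ) : ZMod n) + ((a : ZMod n) * u a) *
            ((b : ZMod n) * v b) = (a : ZMod n) * b *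
            (u a * v b + (((∑ i, (f i + 1)) : ℕ) : ZMod n)) := by ring
      rw [h3, hsol, mul_zero]
    exact (ZMod.natCast_eq_zero_iff _ _).1 h1

/-- The threshold for the scale. -/
noncomputable def Cc (m : ℕ) : ℝ :=
  2 * (2 * ((m : ℝ) + 1)) ^ (8 * m + 6) +
    4 ^ (2 * (m + 1) * (m + 1)) * ((m + 1).factorial : ℝ) ^ 2 + (16 + ((m : ℝ) + 1)) + (8 * m + 6)

/-- The exponent `1 / q` of the scale. -/
def qq (m : ℕ) : ℕ := 64 * m ^ 3 + 176 * m ^ 2 + 160 * m + 48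

/-- Small points, in terms of the scale `y = n ^ (1 / q)`, uniformly in the residue class. -/
theorem core_unif (m n : ℕ) (y : ℝ) (hCy : Cc m ≤ y) (hyn : y ^ qq m = (n : ℝ))
    (hlog : Real.log n ≤ y) (r : ℕ) (hr : r.Coprime n) :
    ∃ x z : ℕ, 1 ≤ x ∧ (x : ℝ) ≤ y ^ (2 * (32 * m ^ 2 + 64 * m + 32)) ∧ 1 ≤ z ∧
      (z : ℝ) ≤ y ^ (64 * m ^ 3 + 176 * m ^ 2 + 160 * m + 47) ∧ n ∣ x * z + r := by
  unfold Cc at hCy
  unfold qq at hyn
  set C1 : ℝ := 2 * (2 * ((m : ℝ) + 1)) ^ (8 * m + 6) with hC1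
  set C2 : ℝ := 4 ^ (2 * (m + 1) * (m + 1)) * ((m + 1).factorial : ℝ) ^ 2 with hC2
  have hC1pos : 0 < C1 := by positivity
  have hC2pos : 0 < C2 := by positivity
  have hm0 : (0 : ℝ) ≤ m := Nat.cast_nonneg m
  have hyC1 : C1 < y := by linarith
  have hyC2 : C2 < y := by linarith
  have hy16 : 16 + ((m : ℝ) + 1) ≤ y := by linarith
  have hyT : ((8 * m + 6 : ℕ) : ℝ) ≤ y := by push_cast; linarith
  have hy1 : (1 : ℝ) ≤ y := by linarith
  have hy0 : (0 : ℝ) < y := by linarith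
  have hnpos : (0 : ℝ) < n := by rw [← hyn]; positivity
  have hn1 : 1 ≤ n := by exact_mod_cast hnpos
  have : NeZero n := ⟨by omega⟩
  set e' := 32 * m ^ 2 + 64 * m + 30 with he'
  have hPn : y ^ (e' + 2) + 1 ≤ (n : ℝ) := by
    have h1 := mono_lt (y := y) (C := 2) (a := e' + 2)
      (b := 64 * m ^ 3 + 176 * m ^ 2 + 160 * m + 48)
      (d := 64 * m ^ 3 + 144 * m ^ 2 + 96 * m + 15) hy1 (by linarith) (by rw [he']; ring)
    rw [hyn] at h1
    have h2 : 1 ≤ y ^ (e' + 2) := one_le_pow₀ hy1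
    linarith
  have hR := usable_lower m n y e' hy16 hn1 (by omega) hlog hPn
  set P := ⌊y ^ (e' + 2)⌋₊ with hP
  set A := usable n P m with hA
  set H := ⌊y ^ (64 * m ^ 3 + 176 * m ^ 2 + 160 * m + 46)⌋₊ with hH
  have hPle : (P : ℝ) ≤ y ^ (e' + 2) := Nat.floor_le (by positivity)
  have hHle : (H : ℝ) ≤ y ^ (64 * m ^ 3 + 176 * m ^ 2 + 160 * m + 46) :=
    Nat.floor_le (by positivity)
  have hHge : y ^ (64 * m ^ 3 + 176 * m ^ 2 + 160 * m + 46) / 2 ≤ (H : ℝ) := by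
    have h1 : y ^ (64 * m ^ 3 + 176 * m ^ 2 + 160 * m + 46) - 1 ≤ (H : ℝ) :=
      (Nat.sub_one_lt_floor _).le
    have h2 : y ≤ y ^ (64 * m ^ 3 + 176 * m ^ 2 + 160 * m + 46) := le_self_pow₀ hy1 (by omega)
    linarith
  have hmem : ∀ p ∈ A, p.Prime ∧ m + 1 < p ∧ p ≤ P ∧ ¬ p ∣ n := by
    intro p hp
    simp only [hA, usable, Finset.mem_filter, Nat.mem_primesLE] at hp
    exact ⟨hp.1.2, hp.2.1, hp.1.1, hp.2.2⟩
  have hAne : A.Nonempty := by
    rw [← Finset.card_pos]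
    have : (0 : ℝ) < A.card := lt_of_lt_of_le (by positivity) hR
    exact_mod_cast this
  have hHn : H ≤ n := by
    have h1 : y ^ (64 * m ^ 3 + 176 * m ^ 2 + 160 * m + 46) ≤
        y ^ (64 * m ^ 3 + 176 * m ^ 2 + 160 * m + 48) := pow_le_pow_right₀ hy1 (by omega)
    rw [hyn] at h1
    exact_mod_cast hHle.trans h1
  have hD : (((m + 1) * P ^ (2 * m + 1) : ℕ) : ℝ) ≤
      ((m : ℝ) + 1) * y ^ ((e' + 2) * (2 * m + 1)) := by
    push_cast
    rw [pow_mul]
    gcongr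
  have hPn2 : (m + 1) * P ^ (2 * m + 1) < n := by
    have h1 := mono_lt (y := y) (C := (m : ℝ) + 1) (a := (e' + 2) * (2 * m + 1))
      (b := 64 * m ^ 3 + 176 * m ^ 2 + 160 * m + 48)
      (d := 16 * m ^ 2 + 32 * m + 15) hy1 (by linarith) (by rw [he']; ring)
    rw [hyn] at h1
    exact_mod_cast lt_of_le_of_lt hD h1
  have hsmall : 2 * (n : ℝ) * (((m + 1) * P ^ (2 * m + 1) : ℕ) : ℝ) ^ (8 * m + 4 + 2) <
      (H : ℝ) ^ (8 * m + 4 + 2) := by
    have h1 := mono_lt (y := y) (C := C1)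
      (a := (64 * m ^ 3 + 176 * m ^ 2 + 160 * m + 48) + (e' + 2) * (2 * m + 1) * (8 * m + 6))
      (b := (64 * m ^ 3 + 176 * m ^ 2 + 160 * m + 46) * (8 * m + 6))
      (d := 64 * m ^ 3 + 176 * m ^ 2 + 144 * m + 35) hy1 hyC1 (by rw [he']; ring)
    have h2 : 2 * (n : ℝ) * (((m + 1) * P ^ (2 * m + 1) : ℕ) : ℝ) ^ (8 * m + 4 + 2) ≤
        2 * (n : ℝ) * (((m : ℝ) + 1) * y ^ ((e' + 2) * (2 * m + 1))) ^ (8 * m + 4 + 2) := by
      gcongr
    have h3 : (y ^ (64 * m ^ 3 + 176 * m ^ 2 + 160 * m + 46) / 2) ^ (8 * m + 4 + 2) ≤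
      (H : ℝ) ^ (8 * m + 4 + 2) := by gcongr
    refine lt_of_le_of_lt h2 (lt_of_lt_of_le ?_ h3)
    rw [div_pow, lt_div_iff₀ (by positivity), ← pow_mul, ← hyn]
    refine lt_of_eq_of_lt ?_ h1
    exact alg_id1 y ((m : ℝ) + 1) _ _ (8 * m + 6)
  have hbig : (2 * (n : ℝ)) ^ (2 * (m + 1) * (m + 1)) * (((m + 1).factorial : ℝ) ^ 2) * n ≤
      (H : ℝ) ^ (2 * (m + 1) * (m + 1)) * (A.card : ℝ) ^ (2 * (m + 1)) := by
    have h1 := mono_lt (y := y) (C := C2)
      (a := (64 * m ^ 3 + 176 * m ^ 2 + 160 * m + 48) * (2 * (m + 1) * (m + 1)) +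
        (64 * m ^ 3 + 176 * m ^ 2 + 160 * m + 48))
      (b := (64 * m ^ 3 + 176 * m ^ 2 + 160 * m + 46) * (2 * (m + 1) * (m + 1)) +
        e' * (2 * (m + 1)))
      (d := 12 * m ^ 2 + 20 * m + 7) hy1 hyC2 (by rw [he']; ring)
    have h2 : (y ^ (64 * m ^ 3 + 176 * m ^ 2 + 160 * m + 46) / 2) ^ (2 * (m + 1) * (m + 1)) *
        (y ^ e') ^ (2 * (m + 1)) ≤
        (H : ℝ) ^ (2 * (m + 1) * (m + 1)) * (A.card : ℝ) ^ (2 * (m + 1)) := by
      gcongr
    refine le_trans ?_ h2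
    rw [div_pow, ← pow_mul, ← pow_mul, div_mul_eq_mul_div, ← pow_add, le_div_iff₀ (by positivity),
      ← hyn]
    refine le_trans (le_of_eq ?_) h1.le
    exact alg_id2 y _ _ _
  obtain ⟨x, z, hx1, hx2, hz1, hz2, hdvd⟩ :=
    finite_sol (t := 8 * m + 4) r hr A hmem hAne hHn hPn2 hsmall hbig
  refine ⟨x, z, hx1, ?_, hz1, ?_, hdvd⟩
  · have h1 : (x : ℝ) ≤ (P : ℝ) ^ 2 := by exact_mod_cast hx2
    refine h1.trans ?_
    have h2 : (P : ℝ) ^ 2 ≤ (y ^ (e' + 2)) ^ 2 := by gcongr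
    refine h2.trans (le_of_eq ?_)
    rw [← pow_mul]
    congr 1
    rw [he']; ring
  · have h1 : (z : ℝ) ≤ ((8 * m + 4 + 2 : ℕ) : ℝ) * H := by exact_mod_cast hz2
    refine h1.trans ?_
    have h2 : ((8 * m + 4 + 2 : ℕ) : ℝ) * H ≤
        y * y ^ (64 * m ^ 3 + 176 * m ^ 2 + 160 * m + 46) := by
      gcongr
    refine h2.trans (le_of_eq ?_)
    rw [← pow_succ']

/-! ### Part 2: one vertex -/

/-- The points `(x, y)` with `x y = a` modulo `n`, `1 ≤ x, y ≤ n - 1`, as a subset of the plane. -/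
def HS (n : ℕ) (a : ℤ) : Set (ℝ × ℝ) :=
  (fun p : ℤ × ℤ => ((p.1 : ℝ), (p.2 : ℝ))) '' {p : ℤ × ℤ | p.1 * p.2 ≡ a [ZMOD n] ∧
    1 ≤ p.1 ∧ p.1 ≤ (n : ℤ) - 1 ∧ 1 ≤ p.2 ∧ p.2 ≤ (n : ℤ) - 1}

theorem HS_finite (n : ℕ) (a : ℤ) : (HS n a).Finite := by
  refine Set.Finite.image _ (Set.Finite.subset
    ((Finset.Icc (1 : ℤ) (n - 1) ×ˢ Finset.Icc (1 : ℤ) (n - 1)).finite_toSet) ?_)
  rintro ⟨x, y⟩ ⟨-, h1, h2, h3, h4⟩
  rw [Finset.mem_coe, Finset.mem_product, Finset.mem_Icc, Finset.mem_Icc]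
  exact ⟨⟨h1, h2⟩, h3, h4⟩

theorem fin_bounds {Y s YE Q w x : ℝ} (hs : 0 < s) (hYE : s * YE = Q) (hQ : 0 < Q)
    (h1 : w + s * x ≤ 2 * Q) (hw : 0 < w) (hx : 0 < x) (h2 : Y * Q / 2 ≤ x * w) :
    Y / 4 ≤ x ∧ x ≤ 2 * YE := by
  have hsx : 0 < s * x := mul_pos hs hx
  constructor
  · have h3 : x * w ≤ x * (2 * Q) := mul_le_mul_of_nonneg_left (by linarith) hx.le
    have h4 : (Y / 4) * Q ≤ x * Q := by linarith
    exact le_of_mul_le_mul_right h4 hQ
  · have h3 : s * x ≤ s * (2 * YE) := by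
      calc s * x ≤ 2 * Q := by linarith
        _ = s * (2 * YE) := by rw [← hYE]; ring
    exact le_of_mul_le_mul_left h3 hs

/-- One extreme point in a prescribed range of scales. -/
theorem stepE (n m : ℕ) (hm : 1 ≤ m) (Y : ℝ) (hC : Cc m ≤ Y) (hY : Y ^ qq m = (n : ℝ))
    (hlog : Real.log n ≤ Y) (a : ℤ) (ha : IsCoprime a (n : ℤ)) :
    ∃ e ∈ Set.extremePoints ℝ (convexHull ℝ (HS n a)),
      Y / 4 ≤ e.1 ∧ e.1 ≤ 2 * Y ^ (2 * (32 * m ^ 2 + 64 * m + 32)) := by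
  have hY1 : (1 : ℝ) < Y := by
    have h1 : (0 : ℝ) ≤ 2 * (2 * ((m : ℝ) + 1)) ^ (8 * m + 6) := by positivity
    have h2 : (0 : ℝ) ≤ 4 ^ (2 * (m + 1) * (m + 1)) * ((m + 1).factorial : ℝ) ^ 2 := by positivity
    have h3 : (0 : ℝ) ≤ m := Nat.cast_nonneg m
    unfold Cc at hC
    linarith
  have hY0 : (0 : ℝ) < Y := by linarith
  have hnR : (0 : ℝ) < n := by rw [← hY]; positivity
  have hn0 : 0 < n := by exact_mod_cast hnR
  set E : ℕ := 2 * (32 * m ^ 2 + 64 * m + 32) with hE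
  set q1 : ℕ := 64 * m ^ 3 + 176 * m ^ 2 + 160 * m + 47 with hq1
  obtain ⟨j, hj⟩ : ∃ j, m = j + 1 := ⟨m - 1, by omega⟩
  obtain ⟨d, hd⟩ : ∃ d : ℕ, q1 = d + E := by
    refine ⟨64 * j ^ 3 + 304 * j ^ 2 + 448 * j + 191, ?_⟩
    rw [hq1, hE, hj]; ring
  have hq : qq m = q1 + 1 := by rw [hq1]; unfold qq; ring
  have hEq : E < qq m := by rw [hq, hd]; omega
  have hYq1 : Y * Y ^ q1 = n := by rw [← hY, hq]; exact (pow_succ' Y q1).symm
  have hlt1 : Y ^ E < n := by rw [← hY]; exact pow_lt_pow_right₀ hY1 hEq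
  have hlt2 : Y ^ q1 < n := by rw [← hY, hq]; exact pow_lt_pow_right₀ hY1 (by omega)
  have hsE : Y ^ d * Y ^ E = Y ^ q1 := by rw [hd, pow_add]
  have hs : 0 < Y ^ d := by positivity
  -- the residue
  have hr0 : 0 ≤ a % n := Int.emod_nonneg _ (by exact_mod_cast hn0.ne')
  have hrn : a % n < n := Int.emod_lt_of_pos _ (by exact_mod_cast hn0)
  obtain ⟨r, hr⟩ : ∃ r : ℕ, (r : ℤ) = a % n := ⟨(a % n).toNat, Int.toNat_of_nonneg hr0⟩
  have hrlt : r < n := by omega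
  have hra : (r : ℤ) ≡ a [ZMOD n] := by rw [hr]; exact Int.mod_modEq a n
  have hcop : r.Coprime n := by
    have h1 := ha.add_mul_left_left (-(a / n))
    have h2 : a + n * -(a / n) = r := by rw [hr, Int.emod_def]; ring
    rw [h2] at h1
    exact Nat.isCoprime_iff_coprime.1 h1
  rcases Nat.lt_or_ge n (2 * r) with hc | hc
  · -- corner `(0, 0)`
    have hcop' : (n - r).Coprime n := by
      exact (Nat.coprime_self_sub_left hrlt.le).2 (by simpa [Nat.coprime_comm] using hcop)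
    obtain ⟨x0, z0, hx1, hx2, hz1, hz2, hdvd⟩ := core_unif m n Y hC hY hlog (n - r) hcop'
    have hx0n : x0 < n := by exact_mod_cast lt_of_le_of_lt hx2 hlt1
    have hz0n : z0 < n := by exact_mod_cast lt_of_le_of_lt hz2 hlt2
    have hmem0 : (((x0 : ℝ), (z0 : ℝ)) : ℝ × ℝ) ∈ HS n a := by
      refine ⟨((x0 : ℤ), (z0 : ℤ)), ⟨?_, by omega, by omega, by omega, by omega⟩, by simp⟩
      refine Int.ModEq.trans ?_ hra
      have h1 : (n : ℤ) ∣ (x0 : ℤ) * z0 + ((n - r : ℕ) : ℤ) := by exact_mod_cast hdvd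
      rw [Nat.cast_sub hrlt.le] at h1
      have h2 : (n : ℤ) ∣ (x0 : ℤ) * z0 - r := by
        have : (x0 : ℤ) * z0 - r = ((x0 : ℤ) * z0 + (n - r)) - n := by ring
        rw [this]
        exact dvd_sub h1 (dvd_refl _)
      exact (Int.modEq_iff_dvd.2 h2).symm
    obtain ⟨e, he, hmax⟩ := exists_extreme_max (HS n a) (HS_finite n a) ⟨_, hmem0⟩
      (-(ContinuousLinearMap.snd ℝ ℝ ℝ) - Y ^ d • ContinuousLinearMap.fst ℝ ℝ ℝ)
    refine ⟨e, he, ?_⟩
    obtain ⟨⟨x, y⟩, ⟨hmod, hx1', hx2', hy1', hy2'⟩, rfl⟩ := extremePoints_convexHull_subset he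
    have h1 := hmax _ hmem0
    simp only [sub_apply, neg_apply,
      ContinuousLinearMap.coe_snd', smul_apply, ContinuousLinearMap.coe_fst',
      smul_eq_mul] at h1
    simp only at hmod hx1' hx2' hy1' hy2' ⊢
    have hxR : (0 : ℝ) < x := by exact_mod_cast (show (0 : ℤ) < x by omega)
    have hyR : (0 : ℝ) < y := by exact_mod_cast (show (0 : ℤ) < y by omega)
    have h2 : Y ^ d * x0 ≤ Y ^ q1 := by
      rw [← hsE]; exact mul_le_mul_of_nonneg_left hx2 hs.le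
    refine fin_bounds (w := (y : ℝ)) hs hsE (by positivity) ?_ hyR hxR ?_
    · linarith
    · rw [hYq1]
      have h3 : (r : ℤ) ≤ x * y := by
        have h4 : (x * y) % n = r := by
          have h5 : (x * y) % n = a % n := hmod
          rw [h5, hr]
        have h5 : 0 ≤ x * y := mul_nonneg (by omega) (by omega)
        have h6 : 0 ≤ n * (x * y / n) := mul_nonneg (by omega) (Int.ediv_nonneg h5 (by omega))
        have h7 := Int.emod_add_mul_ediv (x * y) n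
        omega
      have h4 : (r : ℝ) ≤ x * y := by exact_mod_cast h3
      have h5 : (n : ℝ) < 2 * r := by exact_mod_cast hc
      linarith
  · -- corner `(0, n)`
    obtain ⟨x0, z0, hx1, hx2, hz1, hz2, hdvd⟩ := core_unif m n Y hC hY hlog r hcop
    have hx0n : x0 < n := by exact_mod_cast lt_of_le_of_lt hx2 hlt1
    have hz0n : z0 < n := by exact_mod_cast lt_of_le_of_lt hz2 hlt2
    have hmem0 : (((x0 : ℝ), ((n : ℝ) - z0)) : ℝ × ℝ) ∈ HS n a := by
      refine ⟨((x0 : ℤ), (n : ℤ) - z0), ⟨?_, by omega, by omega, by simp; omega, by simp; omega⟩,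
        by simp⟩
      refine Int.ModEq.trans ?_ hra
      have h1 : (n : ℤ) ∣ (x0 : ℤ) * z0 + r := by exact_mod_cast hdvd
      have h2 : (n : ℤ) ∣ (x0 : ℤ) * ((n : ℤ) - z0) - r := by
        have : (x0 : ℤ) * ((n : ℤ) - z0) - r = x0 * n - ((x0 : ℤ) * z0 + r) := by ring
        rw [this]
        exact dvd_sub (Dvd.intro_left _ rfl) h1
      exact (Int.modEq_iff_dvd.2 h2).symm
    obtain ⟨e, he, hmax⟩ := exists_extreme_max (HS n a) (HS_finite n a) ⟨_, hmem0⟩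
      (ContinuousLinearMap.snd ℝ ℝ ℝ - Y ^ d • ContinuousLinearMap.fst ℝ ℝ ℝ)
    refine ⟨e, he, ?_⟩
    obtain ⟨⟨x, y⟩, ⟨hmod, hx1', hx2', hy1', hy2'⟩, rfl⟩ := extremePoints_convexHull_subset he
    have h1 := hmax _ hmem0
    simp only [sub_apply,
      ContinuousLinearMap.coe_snd', smul_apply, ContinuousLinearMap.coe_fst',
      smul_eq_mul] at h1
    simp only at hmod hx1' hx2' hy1' hy2' ⊢
    have hxR : (0 : ℝ) < x := by exact_mod_cast (show (0 : ℤ) < x by omega)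
    have hyR : (0 : ℝ) < (n : ℝ) - y := by
      have : (0 : ℤ) < n - y := by omega
      exact_mod_cast this
    have h2 : Y ^ d * x0 ≤ Y ^ q1 := by
      rw [← hsE]; exact mul_le_mul_of_nonneg_left hx2 hs.le
    refine fin_bounds (w := (n : ℝ) - y) hs hsE (by positivity) ?_ hyR hxR ?_
    · linarith
    · rw [hYq1]
      have h3 : (n : ℤ) ≤ x * (n - y) + r := by
        apply Int.le_of_dvd
        · have : 0 < x * ((n : ℤ) - y) := mul_pos (by omega) (by omega)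
          omega
        · have h4 : (n : ℤ) ∣ a - x * y := Int.modEq_iff_dvd.1 hmod
          have h5 : (n : ℤ) ∣ a - r := Int.modEq_iff_dvd.1 hra
          have : x * ((n : ℤ) - y) + r = x * n + ((a - x * y) - (a - r)) := by ring
          rw [this]
          exact dvd_add (Dvd.intro_left _ rfl) (dvd_sub h4 h5)
      have h4 : (n : ℝ) ≤ x * ((n : ℝ) - y) + r := by exact_mod_cast h3
      have h5 : 2 * (r : ℝ) ≤ n := by exact_mod_cast hc
      linarith

/-! ### Part 3: many vertices -/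

/-- the sequence of parameters -/
def mm : ℕ → ℕ
  | 0 => 1
  | k + 1 => 2 * qq (mm k)

theorem le_qq (m : ℕ) : m ≤ qq m := by unfold qq; nlinarith [Nat.zero_le (m ^ 3), Nat.zero_le (m ^ 2)]

theorem qq_pos (m : ℕ) : 0 < qq m := by unfold qq; omega

theorem mm_succ (k : ℕ) : mm (k + 1) = 2 * qq (mm k) := by rw [mm]

theorem mm_pos (k : ℕ) : 1 ≤ mm k := by
  induction k with
  | zero => simp [mm]
  | succ k _ => rw [mm_succ]; have := qq_pos (mm k); omega

theorem mm_mono : Monotone mm := by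
  refine monotone_nat_of_le_succ fun k => ?_
  rw [mm_succ]
  have := le_qq (mm k)
  omega

theorem qq_le (m : ℕ) (hm : 1 ≤ m) : qq m ≤ 448 * m ^ 3 := by
  unfold qq
  have h1 : m ^ 2 ≤ m ^ 3 := Nat.pow_le_pow_right hm (by norm_num)
  have h2 : m ≤ m ^ 3 := by calc m = m ^ 1 := (pow_one m).symm
    _ ≤ m ^ 3 := Nat.pow_le_pow_right hm (by norm_num)
  have h3 : 1 ≤ m ^ 3 := Nat.one_le_pow _ _ hm
  omega

theorem alg_ineq (m : ℕ) : 2 * (32 * m ^ 2 + 64 * m + 32) * m ≤ qq m := by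
  unfold qq
  nlinarith [Nat.zero_le (m ^ 3), Nat.zero_le (m ^ 2)]

theorem mm_bound (k : ℕ) : 30 * mm k ≤ 30 ^ 3 ^ k := by
  induction k with
  | zero => simp [mm]
  | succ k ih =>
    have h1 := qq_le (mm k) (mm_pos k)
    have h2 : 30 * mm (k + 1) ≤ (30 * mm k) ^ 3 := by
      rw [mm_succ, mul_pow]
      nlinarith [Nat.zero_le (mm k ^ 3)]
    calc 30 * mm (k + 1) ≤ (30 * mm k) ^ 3 := h2
      _ ≤ (30 ^ 3 ^ k) ^ 3 := Nat.pow_le_pow_left ih 3
      _ = 30 ^ 3 ^ (k + 1) := by rw [← pow_mul, pow_succ]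

theorem Cc_le (m : ℕ) (hm : 1 ≤ m) : Cc m ≤ Real.exp (44 * (m : ℝ) ^ 2) := by
  have hmR : (1 : ℝ) ≤ m := by exact_mod_cast hm
  have hm2 : (m : ℝ) ≤ (m : ℝ) ^ 2 := by nlinarith
  have hm21 : (1 : ℝ) ≤ (m : ℝ) ^ 2 := by nlinarith
  have t1 : 2 * (2 * ((m : ℝ) + 1)) ^ (8 * m + 6) ≤ 2 * Real.exp (42 * (m : ℝ) ^ 2) := by
    have h1 : 2 * ((m : ℝ) + 1) ≤ Real.exp (2 * m + 1) := by
      have := Real.add_one_le_exp (2 * (m : ℝ) + 1)
      linarith
    have h2 : (2 * ((m : ℝ) + 1)) ^ (8 * m + 6) ≤ Real.exp (42 * (m : ℝ) ^ 2) := by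
      calc (2 * ((m : ℝ) + 1)) ^ (8 * m + 6) ≤ Real.exp (2 * m + 1) ^ (8 * m + 6) := by gcongr
        _ = Real.exp (((8 * m + 6 : ℕ) : ℝ) * (2 * m + 1)) := by rw [← Real.exp_nat_mul]
        _ ≤ Real.exp (42 * (m : ℝ) ^ 2) := by
          apply Real.exp_le_exp.2
          push_cast
          nlinarith
    linarith
  have t2 : 4 ^ (2 * (m + 1) * (m + 1)) * ((m + 1).factorial : ℝ) ^ 2 ≤
      Real.exp (42 * (m : ℝ) ^ 2) := by
    have h1 : (4 : ℝ) ≤ Real.exp 2 := by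
      have h := Real.quadratic_le_exp_of_nonneg (x := 2) (by norm_num)
      linarith
    have h2 : (4 : ℝ) ^ (2 * (m + 1) * (m + 1)) ≤
        Real.exp (((2 * (m + 1) * (m + 1) : ℕ) : ℝ) * 2) := by
      rw [Real.exp_nat_mul]
      gcongr
    have h3 : ((m + 1).factorial : ℝ) ≤ Real.exp (((m + 1 : ℕ) : ℝ) * m) := by
      have h4 : ((m + 1).factorial : ℝ) ≤ ((m : ℝ) + 1) ^ (m + 1) := by
        have := Nat.factorial_le_pow (m + 1)
        exact_mod_cast this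
      refine h4.trans ?_
      rw [Real.exp_nat_mul]
      have := Real.add_one_le_exp (m : ℝ)
      gcongr
    calc (4 : ℝ) ^ (2 * (m + 1) * (m + 1)) * ((m + 1).factorial : ℝ) ^ 2
        ≤ Real.exp (((2 * (m + 1) * (m + 1) : ℕ) : ℝ) * 2) *
          (Real.exp (((m + 1 : ℕ) : ℝ) * m)) ^ 2 := by gcongr
      _ = Real.exp (((2 * (m + 1) * (m + 1) : ℕ) : ℝ) * 2 + 2 * (((m + 1 : ℕ) : ℝ) * m)) := by
          rw [← Real.exp_nat_mul, ← Real.exp_add]; norm_num
      _ ≤ Real.exp (42 * (m : ℝ) ^ 2) := by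
          apply Real.exp_le_exp.2
          push_cast
          nlinarith
  have t3 : 16 + ((m : ℝ) + 1) + (8 * m + 6) ≤ Real.exp (42 * (m : ℝ) ^ 2) := by
    have := Real.add_one_le_exp (42 * (m : ℝ) ^ 2)
    nlinarith
  have h4 : (4 : ℝ) ≤ Real.exp (2 * (m : ℝ) ^ 2) := by
    have h := Real.quadratic_le_exp_of_nonneg (x := 2) (by norm_num)
    have h2 : Real.exp 2 ≤ Real.exp (2 * (m : ℝ) ^ 2) := Real.exp_le_exp.2 (by linarith)
    linarith
  have h5 : Real.exp (44 * (m : ℝ) ^ 2) =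
      Real.exp (2 * (m : ℝ) ^ 2) * Real.exp (42 * (m : ℝ) ^ 2) := by
    rw [← Real.exp_add]; congr 1; ring
  unfold Cc
  rw [h5]
  have h6 : 0 < Real.exp (42 * (m : ℝ) ^ 2) := Real.exp_pos _
  nlinarith

/-- The conditions of `stepE` hold if `(30 m)^10 ≤ log n`. -/
theorem good (n m : ℕ) (hm : 1 ≤ m) (hL : ((30 * m : ℕ) : ℝ) ^ 10 ≤ Real.log n) :
    Cc m ≤ (n : ℝ) ^ ((qq m : ℝ)⁻¹) ∧ Real.log n ≤ (n : ℝ) ^ ((qq m : ℝ)⁻¹) := by
  set L := Real.log n with hLdef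
  have hmR : (1 : ℝ) ≤ m := by exact_mod_cast hm
  have hL1 : (1 : ℝ) ≤ L := by
    refine le_trans ?_ hL
    have : (1 : ℝ) ≤ ((30 * m : ℕ) : ℝ) := by push_cast; linarith
    exact one_le_pow₀ this
  have hL0 : 0 < L := by linarith
  have hn0 : (0 : ℝ) < n := by
    rcases Nat.eq_zero_or_pos n with h | h
    · rw [hLdef, h] at hL0
      simp at hL0
    · exact_mod_cast h
  have hq0 : (0 : ℝ) < (qq m : ℝ) := by exact_mod_cast qq_pos m
  have hqle : (qq m : ℝ) ≤ 448 * (m : ℝ) ^ 3 := by exact_mod_cast qq_le m hm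
  have hpow : (n : ℝ) ^ ((qq m : ℝ)⁻¹) = Real.exp (L / qq m) := by
    rw [Real.rpow_def_of_pos hn0, ← hLdef, div_eq_mul_inv]
  have hm5 : (m : ℝ) ^ 5 ≤ (m : ℝ) ^ 10 := pow_le_pow_right₀ hmR (by norm_num)
  have hm6 : (m : ℝ) ^ 6 ≤ (m : ℝ) ^ 10 := pow_le_pow_right₀ hmR (by norm_num)
  have hm10 : (0 : ℝ) < (m : ℝ) ^ 10 := by positivity
  have hL' : 590490000000000 * (m : ℝ) ^ 10 ≤ L := by
    refine le_trans (le_of_eq ?_) hL
    push_cast
    ring
  rw [hpow]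
  constructor
  · refine (Cc_le m hm).trans (Real.exp_le_exp.2 ?_)
    rw [le_div_iff₀ hq0]
    calc 44 * (m : ℝ) ^ 2 * qq m ≤ 44 * (m : ℝ) ^ 2 * (448 * (m : ℝ) ^ 3) := by gcongr
      _ = 19712 * (m : ℝ) ^ 5 := by ring
      _ ≤ L := by nlinarith
  · have h1 : Real.log L ≤ L / qq m := by
      rw [le_div_iff₀ hq0]
      have h2 : 2 * (qq m : ℝ) ≤ Real.sqrt L := by
        apply Real.le_sqrt_of_sq_le
        calc (2 * (qq m : ℝ)) ^ 2 ≤ (2 * (448 * (m : ℝ) ^ 3)) ^ 2 := by gcongr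
          _ = 802816 * (m : ℝ) ^ 6 := by ring
          _ ≤ L := by nlinarith
      have h3 : Real.log L ≤ 2 * Real.sqrt L := by
        have := Real.log_le_rpow_div hL0.le (ε := 1 / 2) (by norm_num)
        rw [← Real.sqrt_eq_rpow] at this
        linarith
      have h4 : Real.sqrt L * Real.sqrt L = L := Real.mul_self_sqrt hL0.le
      have h5 : 0 ≤ Real.sqrt L := Real.sqrt_nonneg L
      nlinarith
    calc L = Real.exp (Real.log L) := (Real.exp_log hL0).symm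
      _ ≤ Real.exp (L / qq m) := Real.exp_le_exp.2 h1

/-- If `(30^(3^K))^10 ≤ log n` then the hull has at least `K + 1` vertices. -/
theorem many (n K : ℕ) (hK : ((30 : ℝ) ^ 3 ^ K) ^ 10 ≤ Real.log n) (a : ℤ)
    (ha : IsCoprime a (n : ℤ)) :
    K + 1 ≤ (Set.extremePoints ℝ (convexHull ℝ (HS n a))).ncard := by
  classical
  have hg : ∀ k ≤ K, Cc (mm k) ≤ (n : ℝ) ^ ((qq (mm k) : ℝ)⁻¹) ∧
      Real.log n ≤ (n : ℝ) ^ ((qq (mm k) : ℝ)⁻¹) := by
    intro k hk
    refine good n (mm k) (mm_pos k) (le_trans ?_ hK)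
    have h1 : 30 * mm k ≤ 30 ^ 3 ^ K := by
      have h2 := mm_mono hk
      have h3 := mm_bound K
      omega
    have h4 : ((30 * mm k : ℕ) : ℝ) ≤ (30 : ℝ) ^ 3 ^ K := by exact_mod_cast h1
    gcongr
  have hn1 : (1 : ℝ) < n := by
    by_contra h
    have h1 : Real.log n ≤ 0 := Real.log_nonpos (Nat.cast_nonneg n) (not_lt.1 h)
    have h2 : (0 : ℝ) < ((30 : ℝ) ^ 3 ^ K) ^ 10 := by positivity
    linarith
  have hn0 : (0 : ℝ) < n := by linarith
  have hstep : ∀ k ≤ K, ∃ e ∈ Set.extremePoints ℝ (convexHull ℝ (HS n a)),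
      (n : ℝ) ^ ((qq (mm k) : ℝ)⁻¹) / 4 ≤ e.1 ∧
        e.1 ≤ 2 * ((n : ℝ) ^ ((qq (mm k) : ℝ)⁻¹)) ^
          (2 * (32 * (mm k) ^ 2 + 64 * (mm k) + 32)) := by
    intro k hk
    exact stepE n (mm k) (mm_pos k) _ (hg k hk).1
      (Real.rpow_inv_natCast_pow hn0.le (qq_pos (mm k)).ne') (hg k hk).2 a ha
  choose! e he1 he2 he3 using hstep
  -- the abscissae decrease
  have hdec : ∀ k, k + 1 ≤ K → (e (k + 1)).1 < (e k).1 := by
    intro k hk
    have h1 := he2 k (by omega)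
    have h2 := he3 (k + 1) hk
    set y := (n : ℝ) ^ ((qq (mm k) : ℝ)⁻¹) with hy
    have hy64 : 64 < y := by
      refine lt_of_lt_of_le ?_ (hg k (by omega)).1
      have h3 : (1 : ℝ) ≤ mm k := by exact_mod_cast mm_pos k
      have h4 : (4 : ℝ) ^ 6 ≤ (2 * ((mm k : ℝ) + 1)) ^ (8 * mm k + 6) := by
        calc (4 : ℝ) ^ 6 ≤ (2 * ((mm k : ℝ) + 1)) ^ 6 := by gcongr; linarith
          _ ≤ (2 * ((mm k : ℝ) + 1)) ^ (8 * mm k + 6) :=
            pow_le_pow_right₀ (by linarith) (by omega)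
      have h5 : (0 : ℝ) ≤ 4 ^ (2 * (mm k + 1) * (mm k + 1)) * ((mm k + 1).factorial : ℝ) ^ 2 := by
        positivity
      unfold Cc
      linarith
    have hy0 : (0 : ℝ) < y := by linarith
    have h3 : ((n : ℝ) ^ ((qq (mm (k + 1)) : ℝ)⁻¹)) ^
        (2 * (32 * (mm (k + 1)) ^ 2 + 64 * (mm (k + 1)) + 32)) ≤ Real.sqrt y := by
      rw [hy, Real.sqrt_eq_rpow, ← Real.rpow_natCast, ← Real.rpow_mul hn0.le,
        ← Real.rpow_mul hn0.le]
      refine Real.rpow_le_rpow_of_exponent_le hn1.le ?_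
      have hq' : (0 : ℝ) < (qq (mm (k + 1)) : ℝ) := by exact_mod_cast qq_pos _
      have hq : (0 : ℝ) < (qq (mm k) : ℝ) := by exact_mod_cast qq_pos _
      have e1 : (mm (k + 1) : ℝ) = 2 * (qq (mm k) : ℝ) := by rw [mm_succ]; push_cast; ring
      rw [inv_mul_le_iff₀ hq']
      have e2 : (qq (mm (k + 1)) : ℝ) * (((qq (mm k) : ℝ))⁻¹ * (1 / 2)) =
          (qq (mm (k + 1)) : ℝ) / (mm (k + 1)) := by
        rw [e1]; field_simp
      have hm' : (0 : ℝ) < (mm (k + 1) : ℝ) := by exact_mod_cast mm_pos _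
      rw [e2, le_div_iff₀ hm']
      have := alg_ineq (mm (k + 1))
      have h9 : ((2 * (32 * (mm (k + 1)) ^ 2 + 64 * (mm (k + 1)) + 32) * mm (k + 1) : ℕ) : ℝ) ≤
          (qq (mm (k + 1)) : ℝ) := Nat.cast_le.2 this
      rw [Nat.cast_mul] at h9
      exact h9
    have h4 : Real.sqrt y * Real.sqrt y = y := Real.mul_self_sqrt hy0.le
    have h5 : 8 < Real.sqrt y := by
      rw [Real.lt_sqrt (by norm_num)]
      norm_num
      exact hy64
    nlinarith
  have hdec2 : ∀ i j, i < j → j ≤ K → (e j).1 < (e i).1 := by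
    intro i j hij
    induction j with
    | zero => omega
    | succ j ih =>
      intro hj
      rcases Nat.lt_or_ge i j with h | h
      · exact (hdec j hj).trans (ih h (by omega))
      · have : i = j := by omega
        subst this
        exact hdec i hj
  have hfin : (Set.extremePoints ℝ (convexHull ℝ (HS n a))).Finite :=
    (HS_finite n a).subset extremePoints_convexHull_subset
  have hinj : Set.InjOn e (Finset.range (K + 1) : Set ℕ) := by
    intro i hi j hj hij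
    rw [Finset.mem_coe, Finset.mem_range] at hi hj
    rcases lt_trichotomy i j with h | h | h
    · have := hdec2 i j h (by omega)
      rw [hij] at this
      exact absurd this (lt_irrefl _)
    · exact h
    · have := hdec2 j i h (by omega)
      rw [hij] at this
      exact absurd this (lt_irrefl _)
  have hcard : ((Finset.range (K + 1)).image e).card = K + 1 := by
    rw [Finset.card_image_of_injOn hinj, Finset.card_range]
  calc K + 1 = ((Finset.range (K + 1)).image e : Set (ℝ × ℝ)).ncard := by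
        rw [Set.ncard_coe_finset, hcard]
    _ ≤ _ := by
        refine Set.ncard_le_ncard ?_ hfin
        intro p hp
        rw [Finset.coe_image] at hp
        obtain ⟨k, hk, rfl⟩ := hp
        rw [Finset.mem_coe, Finset.mem_range] at hk
        exact he1 k (by omega)

/-- The explicit lower bound. -/
theorem lower : ∃ N : ℕ, ∀ n : ℕ, N ≤ n → ∀ a : ℤ, IsCoprime a (n : ℤ) →
    Real.log (Real.log (Real.log n)) / 2 ≤
      ((Set.extremePoints ℝ (convexHull ℝ (HS n a))).ncard : ℝ) := by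
  set c0 : ℝ := Real.log (10 * Real.log 30) with hc0
  have hev : ∀ᶠ n : ℕ in Filter.atTop, 4 * c0 ≤ Real.log (Real.log (Real.log n)) ∧
      0 < Real.log (Real.log n) ∧ 0 < Real.log n ∧ c0 ≤ Real.log (Real.log (Real.log n)) := by
    have h0 : Filter.Tendsto (fun n : ℕ => Real.log n) Filter.atTop Filter.atTop :=
      Real.tendsto_log_atTop.comp tendsto_natCast_atTop_atTop
    have h1 : Filter.Tendsto (fun n : ℕ => Real.log (Real.log n)) Filter.atTop Filter.atTop :=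
      Real.tendsto_log_atTop.comp h0
    have h2 : Filter.Tendsto (fun n : ℕ => Real.log (Real.log (Real.log n))) Filter.atTop
        Filter.atTop := Real.tendsto_log_atTop.comp h1
    filter_upwards [h2.eventually_ge_atTop (4 * c0), h1.eventually_gt_atTop 0,
      h0.eventually_gt_atTop 0, h2.eventually_ge_atTop c0] with n a1 a2 a3 a4
    exact ⟨a1, a2, a3, a4⟩
  obtain ⟨N, hN⟩ := Filter.eventually_atTop.1 hev
  refine ⟨N, fun n hn a ha => ?_⟩
  obtain ⟨h1, h2, h3, h4⟩ := hN n hn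
  set L := Real.log n with hL
  set X := Real.log (Real.log L) with hX
  have hlog30 : 0 < Real.log 30 := Real.log_pos (by norm_num)
  have hlog3 : 0 < Real.log 3 := Real.log_pos (by norm_num)
  have hlog3' : Real.log 3 ≤ 3 / 2 := by
    have h := Real.quadratic_le_exp_of_nonneg (x := 3 / 2) (by norm_num)
    have h' : (3 : ℝ) ≤ Real.exp (3 / 2) := by linarith
    calc Real.log 3 ≤ Real.log (Real.exp (3 / 2)) := Real.log_le_log (by norm_num) h'
      _ = 3 / 2 := Real.log_exp _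
  set κ : ℝ := (X - c0) / Real.log 3 with hκ
  have hκ0 : 0 ≤ κ := div_nonneg (by linarith) hlog3.le
  set K : ℕ := ⌊κ⌋₊ with hK
  have hKle : (K : ℝ) ≤ κ := Nat.floor_le hκ0
  have hcond : ((30 : ℝ) ^ 3 ^ K) ^ 10 ≤ L := by
    have e1 : ((3 : ℝ) ^ K) ≤ Real.log L / (10 * Real.log 30) := by
      have e2 : Real.log ((3 : ℝ) ^ K) ≤ Real.log (Real.log L / (10 * Real.log 30)) := by
        rw [Real.log_pow, Real.log_div h2.ne' (by positivity), ← hc0, ← hX]
        rw [hκ, le_div_iff₀ hlog3] at hKle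
        exact hKle
      exact (Real.log_le_log_iff (by positivity) (by positivity)).1 e2
    rw [le_div_iff₀ (by positivity)] at e1
    have e3 : Real.log (((30 : ℝ) ^ 3 ^ K) ^ 10) ≤ Real.log L := by
      rw [Real.log_pow, Real.log_pow]
      push_cast
      linarith
    exact (Real.log_le_log_iff (by positivity) h3).1 e3
  have hmany := many n K hcond a ha
  have hmany' : (K : ℝ) + 1 ≤
      ((Set.extremePoints ℝ (convexHull ℝ (HS n a))).ncard : ℝ) := by exact_mod_cast hmany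
  have hκ1 : κ < (K : ℝ) + 1 := Nat.lt_floor_add_one κ
  have hfinal : X / 2 ≤ κ := by
    rw [hκ, le_div_iff₀ hlog3]
    rcases le_or_gt 0 X with hX0 | hX0
    · nlinarith
    · nlinarith
  linarith

end Pool.Agent.Helper39.OWN
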