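import Pool.Agent.Helper32.SymC

/-!
# Rounding of fractional colourings with any number of colours

The group `Γ` carries a fractional colouring `w : Fin r → Γ → ℝ`; the product of `Γ` with three
circles of length `p` gets a true colouring.
-/

set_option autoImplicit false

namespace Pool.Agent.Helper39.OWN.Sym

open MeasureTheory Pool.Agent.Helper32.Sym

/-- The circle of length `p`, written multiplicatively. -/
abbrev KK (p : ℕ) := Multiplicative (AddCircle (p : ℝ))

/-- The product with three circles. -/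
abbrev GK (Γ : Type) (p : ℕ) := Γ × (KK p × KK p × KK p)

/-- Partial sums of a family of functions. -/
noncomputable def ps {Γ : Type} {r : ℕ} (w : Fin r → Γ → ℝ) (j : ℕ) (x : Γ) : ℝ :=
  ∑ i ∈ Finset.univ.filter (fun i : Fin r => i.val < j), w i x

/-- A continuous fractional colouring. -/
structure Frac (Γ : Type) [TopologicalSpace Γ] (r : ℕ) where
  /-- the weights -/
  w : Fin r → Γ → ℝ
  cont : ∀ i, Continuous (w i)
  nonneg : ∀ i x, 0 ≤ w i x
  sum_one : ∀ x, ∑ i, w i x = 1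

section Levels
variable {Γ : Type} [TopologicalSpace Γ] {r : ℕ} (F : Frac Γ r)

theorem ps_zero (x : Γ) : ps F.w 0 x = 0 := by
  unfold ps
  simp

theorem ps_last (x : Γ) : ps F.w r x = 1 := by
  unfold ps
  rw [Finset.filter_true_of_mem (fun i _ => i.2), F.sum_one]

theorem ps_succ (i : Fin r) (x : Γ) : ps F.w (i.val + 1) x = ps F.w i.val x + F.w i x := by
  unfold ps
  have h : Finset.univ.filter (fun j : Fin r => j.val < i.val + 1) =
      insert i (Finset.univ.filter (fun j : Fin r => j.val < i.val)) := by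
    ext j
    simp only [Finset.mem_filter, Finset.mem_univ, true_and, Finset.mem_insert]
    constructor
    · intro hj
      rcases Nat.lt_succ_iff_lt_or_eq.1 hj with h1 | h1
      · exact Or.inr h1
      · exact Or.inl (Fin.ext h1)
    · rintro (rfl | h1)
      · exact Nat.lt_succ_self _
      · exact Nat.lt_succ_of_lt h1
  rw [h, Finset.sum_insert (by simp), add_comm]

theorem ps_mono {j k : ℕ} (h : j ≤ k) (x : Γ) : ps F.w j x ≤ ps F.w k x := by
  unfold ps
  refine Finset.sum_le_sum_of_subset_of_nonneg (fun i hi => ?_) fun i _ _ => F.nonneg i x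
  simp only [Finset.mem_filter, Finset.mem_univ, true_and] at hi ⊢
  exact lt_of_lt_of_le hi h

theorem ps_nonneg (j : ℕ) (x : Γ) : 0 ≤ ps F.w j x :=
  Finset.sum_nonneg fun i _ => F.nonneg i x

theorem w_le_one (i : Fin r) (x : Γ) : F.w i x ≤ 1 := by
  rw [← F.sum_one x]
  exact Finset.single_le_sum (fun j _ => F.nonneg j x) (Finset.mem_univ i)

theorem ps_le_one (j : ℕ) (x : Γ) : ps F.w j x ≤ 1 := by
  rw [← F.sum_one x]
  unfold ps
  exact Finset.sum_le_sum_of_subset_of_nonneg (Finset.filter_subset _ _)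
    fun i _ _ => F.nonneg i x

theorem continuous_ps (j : ℕ) : Continuous (ps F.w j) := by
  unfold ps
  exact continuous_finsetSum _ fun i _ => F.cont i

theorem exists_level (x : Γ) (t : ℝ) (h0 : 0 ≤ t) (h1 : t < 1) :
    ∃ i : Fin r, ps F.w i.val x ≤ t ∧ t < ps F.w (i.val + 1) x := by
  classical
  have hex : ∃ j, t < ps F.w j x := ⟨r, by rw [ps_last]; exact h1⟩
  have hm := Nat.find_spec hex
  have hmin := fun k => Nat.find_min hex (m := k)
  set j := Nat.find hex with hj
  have hj0 : j ≠ 0 := by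
    intro h
    rw [h, ps_zero] at hm
    exact absurd hm (not_lt.2 h0)
  obtain ⟨k, hk⟩ := Nat.exists_eq_succ_of_ne_zero hj0
  have hjr : j ≤ r := Nat.find_min' hex (by rw [ps_last]; exact h1)
  have hkr : k < r := by omega
  refine ⟨⟨k, hkr⟩, ?_, ?_⟩
  · exact not_lt.1 (hmin k (by omega))
  · rw [hk] at hm
    exact hm

theorem level_unique (x : Γ) (t : ℝ) (i i' : Fin r)
    (h : ps F.w i.val x ≤ t ∧ t < ps F.w (i.val + 1) x)
    (h' : ps F.w i'.val x ≤ t ∧ t < ps F.w (i'.val + 1) x) : i = i' := by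
  rcases lt_trichotomy i i' with h1 | h1 | h1
  · have h2 : i.val + 1 ≤ i'.val := h1
    exact absurd (h.2.trans_le ((ps_mono F h2 x).trans h'.1)) (lt_irrefl _)
  · exact h1
  · have h2 : i'.val + 1 ≤ i.val := h1
    exact absurd (h'.2.trans_le ((ps_mono F h2 x).trans h.1)) (lt_irrefl _)

end Levels

section
variable {Γ : Type} [Group Γ] [TopologicalSpace Γ] [IsTopologicalGroup Γ] {r : ℕ}
  (F : Frac Γ r) (p : ℕ)

noncomputable def c0 (P : GK Γ p) : ZMod p := pr p (Multiplicative.toAdd P.2.1)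
noncomputable def c1 (P : GK Γ p) : ZMod p := pr p (Multiplicative.toAdd P.2.2.1)
noncomputable def c2 (P : GK Γ p) : ZMod p := pr p (Multiplicative.toAdd P.2.2.2)

/-- The level of a point. -/
noncomputable def U (P : GK Γ p) : ZMod p := c1 p P + c0 p P * c2 p P

/-- Shift by an integer vector. -/
noncomputable def Sh (Γ : Type) [Group Γ] (p : ℕ) (γ : ZMod p × ZMod p × ZMod p) : GK Γ p :=
  (1, Multiplicative.ofAdd ((γ.1.val : ℝ) : AddCircle (p : ℝ)),
    Multiplicative.ofAdd ((γ.2.1.val : ℝ) : AddCircle (p : ℝ)),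
    Multiplicative.ofAdd ((γ.2.2.val : ℝ) : AddCircle (p : ℝ)))

theorem Sh_fst (γ : ZMod p × ZMod p × ZMod p) (P : GK Γ p) : (Sh Γ p γ * P).1 = P.1 := by
  show (1 : Γ) * P.1 = P.1
  rw [one_mul]

theorem R_Sh_fst (γ : ZMod p × ZMod p × ZMod p) (C P : GK Γ p) :
    (R C (Sh Γ p γ * P)).1 = R C.1 P.1 := by
  show C.1 * ((1 : Γ) * P.1)⁻¹ * C.1 = _
  rw [one_mul]
  rfl

variable [Fact p.Prime]

theorem U_lt (P : GK Γ p) : ((U p P).val : ℝ) / p < 1 := by
  have hp0 : (0 : ℝ) < p := by exact_mod_cast (Fact.out : p.Prime).pos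
  rw [div_lt_one hp0]
  exact_mod_cast ZMod.val_lt _

theorem U_nonneg (P : GK Γ p) : 0 ≤ ((U p P).val : ℝ) / p := by positivity

/-- The colouring. -/
noncomputable def chi (P : GK Γ p) : Fin r :=
  Classical.choose (exists_level F P.1 _ (U_nonneg p P) (U_lt p P))

theorem chi_spec (P : GK Γ p) : ps F.w (chi F p P).val P.1 ≤ ((U p P).val : ℝ) / p ∧
    ((U p P).val : ℝ) / p < ps F.w ((chi F p P).val + 1) P.1 :=
  Classical.choose_spec (exists_level F P.1 _ (U_nonneg p P) (U_lt p P))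

/-- The levels of the colour `i`. -/
noncomputable def Lv (i : Fin r) (x : Γ) : Finset (ZMod p) :=
  Finset.univ.filter fun u => ps F.w i.val x ≤ (u.val : ℝ) / p ∧
    (u.val : ℝ) / p < ps F.w (i.val + 1) x

theorem chi_eq_iff (i : Fin r) (P : GK Γ p) : chi F p P = i ↔ U p P ∈ Lv F p i P.1 := by
  have h := chi_spec F p P
  unfold Lv
  simp only [Finset.mem_filter, Finset.mem_univ, true_and]
  constructor
  · rintro rfl
    exact h
  · intro h'
    exact level_unique F P.1 _ _ _ h h'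

theorem card_Lv (i : Fin r) (x : Γ) : ((Lv F p i x).card : ℝ) ≤ p * F.w i x + 1 := by
  have hp0 : (0 : ℝ) < p := by exact_mod_cast (Fact.out : p.Prime).pos
  set a : ℝ := p * ps F.w i.val x with ha
  set b : ℝ := p * ps F.w (i.val + 1) x with hb
  have ha0 : 0 ≤ a := mul_nonneg hp0.le (ps_nonneg F _ x)
  have hb0 : 0 ≤ b := mul_nonneg hp0.le (ps_nonneg F _ x)
  have hab : b - a = p * F.w i x := by rw [hb, ha, ps_succ]; ring
  have hab' : a ≤ b := by
    have := mul_nonneg hp0.le (F.nonneg i x)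
    linarith
  have h1 : (Lv F p i x).card ≤ ⌈b⌉₊ - ⌈a⌉₊ := by
    have := Finset.card_le_card_of_injOn (s := Lv F p i x) (t := Finset.Ico ⌈a⌉₊ ⌈b⌉₊)
      (fun u => u.val) (by
        intro u hu
        simp only [Lv, Finset.coe_filter, Finset.mem_univ, true_and, Set.mem_ofPred_eq] at hu
        rw [Finset.mem_coe, Finset.mem_Ico, Nat.ceil_le, Nat.lt_ceil]
        refine ⟨?_, ?_⟩
        · have h2 := hu.1
          rw [le_div_iff₀ hp0, mul_comm] at h2
          exact h2
        · have h2 := hu.2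
          rw [div_lt_iff₀ hp0, mul_comm] at h2
          exact h2) (fun x _ y _ h => ZMod.val_injective p h)
    simpa using this
  have h2 : ⌈a⌉₊ ≤ ⌈b⌉₊ := Nat.ceil_mono hab'
  have h3 : ((Lv F p i x).card : ℝ) ≤ ⌈b⌉₊ - ⌈a⌉₊ := by
    have : ((Lv F p i x).card : ℝ) ≤ ((⌈b⌉₊ - ⌈a⌉₊ : ℕ) : ℝ) := by exact_mod_cast h1
    rwa [Nat.cast_sub h2] at this
  have h4 : (⌈b⌉₊ : ℝ) < b + 1 := Nat.ceil_lt_add_one hb0
  have h5 : a ≤ ⌈a⌉₊ := Nat.le_ceil a
  linarith

omit [TopologicalSpace Γ] [IsTopologicalGroup Γ] in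
theorem c0_Sh (γ : ZMod p × ZMod p × ZMod p) (P : GK Γ p) :
    c0 p (Sh Γ p γ * P) = c0 p P + γ.1 := by
  show pr p (((γ.1.val : ℝ) : AddCircle (p : ℝ)) + Multiplicative.toAdd P.2.1) = _
  rw [pr_nat_add, ZMod.natCast_zmod_val]
  rfl

omit [TopologicalSpace Γ] [IsTopologicalGroup Γ] in
theorem c1_Sh (γ : ZMod p × ZMod p × ZMod p) (P : GK Γ p) :
    c1 p (Sh Γ p γ * P) = c1 p P + γ.2.1 := by
  show pr p (((γ.2.1.val : ℝ) : AddCircle (p : ℝ)) + Multiplicative.toAdd P.2.2.1) = _
  rw [pr_nat_add, ZMod.natCast_zmod_val]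
  rfl

omit [TopologicalSpace Γ] [IsTopologicalGroup Γ] in
theorem c2_Sh (γ : ZMod p × ZMod p × ZMod p) (P : GK Γ p) :
    c2 p (Sh Γ p γ * P) = c2 p P + γ.2.2 := by
  show pr p (((γ.2.2.val : ℝ) : AddCircle (p : ℝ)) + Multiplicative.toAdd P.2.2.2) = _
  rw [pr_nat_add, ZMod.natCast_zmod_val]
  rfl

omit [TopologicalSpace Γ] [IsTopologicalGroup Γ] in
theorem c0_R_Sh (γ : ZMod p × ZMod p × ZMod p) (C P : GK Γ p) :
    c0 p (R C (Sh Γ p γ * P)) = c0 p (R C P) - γ.1 := by
  have h : Multiplicative.toAdd (R C (Sh Γ p γ * P)).2.1 =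
      Multiplicative.toAdd (R C P).2.1 - ((γ.1.val : ℝ) : AddCircle (p : ℝ)) := by
    show Multiplicative.toAdd C.2.1 +
      -(((γ.1.val : ℝ) : AddCircle (p : ℝ)) + Multiplicative.toAdd P.2.1) +
      Multiplicative.toAdd C.2.1 = Multiplicative.toAdd C.2.1 + -Multiplicative.toAdd P.2.1 +
      Multiplicative.toAdd C.2.1 - _
    abel
  unfold c0
  rw [h, pr_sub_nat, ZMod.natCast_zmod_val]

omit [TopologicalSpace Γ] [IsTopologicalGroup Γ] in
theorem c1_R_Sh (γ : ZMod p × ZMod p × ZMod p) (C P : GK Γ p) :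
    c1 p (R C (Sh Γ p γ * P)) = c1 p (R C P) - γ.2.1 := by
  have h : Multiplicative.toAdd (R C (Sh Γ p γ * P)).2.2.1 =
      Multiplicative.toAdd (R C P).2.2.1 - ((γ.2.1.val : ℝ) : AddCircle (p : ℝ)) := by
    show Multiplicative.toAdd C.2.2.1 +
      -(((γ.2.1.val : ℝ) : AddCircle (p : ℝ)) + Multiplicative.toAdd P.2.2.1) +
      Multiplicative.toAdd C.2.2.1 = Multiplicative.toAdd C.2.2.1 +
      -Multiplicative.toAdd P.2.2.1 + Multiplicative.toAdd C.2.2.1 - _
    abel
  unfold c1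
  rw [h, pr_sub_nat, ZMod.natCast_zmod_val]

omit [TopologicalSpace Γ] [IsTopologicalGroup Γ] in
theorem c2_R_Sh (γ : ZMod p × ZMod p × ZMod p) (C P : GK Γ p) :
    c2 p (R C (Sh Γ p γ * P)) = c2 p (R C P) - γ.2.2 := by
  have h : Multiplicative.toAdd (R C (Sh Γ p γ * P)).2.2.2 =
      Multiplicative.toAdd (R C P).2.2.2 - ((γ.2.2.val : ℝ) : AddCircle (p : ℝ)) := by
    show Multiplicative.toAdd C.2.2.2 +
      -(((γ.2.2.val : ℝ) : AddCircle (p : ℝ)) + Multiplicative.toAdd P.2.2.2) +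
      Multiplicative.toAdd C.2.2.2 = Multiplicative.toAdd C.2.2.2 +
      -Multiplicative.toAdd P.2.2.2 + Multiplicative.toAdd C.2.2.2 - _
    abel
  unfold c2
  rw [h, pr_sub_nat, ZMod.natCast_zmod_val]

open Classical in
/-- Indicator of the set of points which together with their mirror image have colour `i`. -/
noncomputable def ind (i : Fin r) (C P : GK Γ p) : ℝ :=
  if chi F p P = i ∧ chi F p (R C P) = i then 1 else 0

/-- The bounding function. -/
noncomputable def bd (i : Fin r) (C x : Γ) : ℝ :=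
  (F.w i x + 1 / p) * (F.w i (R C x) + 1 / p) + 1 / p

theorem sum_ind_le (hp : p ≠ 2) (i : Fin r) (C P : GK Γ p) :
    ∑ γ : ZMod p × ZMod p × ZMod p, ind F p i C (Sh Γ p γ * P) ≤
      (p : ℝ) ^ 3 * bd F p i C.1 P.1 := by
  classical
  have hp0 : (0 : ℝ) < p := by exact_mod_cast (Fact.out : p.Prime).pos
  have h1 : ∀ γ : ZMod p × ZMod p × ZMod p, ind F p i C (Sh Γ p γ * P) =
      if ((c1 p P + γ.2.1) + (c0 p P + γ.1) * (c2 p P + γ.2.2) ∈ Lv F p i P.1 ∧
      (c1 p (R C P) - γ.2.1) + (c0 p (R C P) - γ.1) * (c2 p (R C P) - γ.2.2) ∈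
        Lv F p i (R C.1 P.1)) then 1 else 0 := by
    intro γ
    have hiff : (chi F p (Sh Γ p γ * P) = i ∧ chi F p (R C (Sh Γ p γ * P)) = i) ↔
        ((c1 p P + γ.2.1) + (c0 p P + γ.1) * (c2 p P + γ.2.2) ∈ Lv F p i P.1 ∧
      (c1 p (R C P) - γ.2.1) + (c0 p (R C P) - γ.1) * (c2 p (R C P) - γ.2.2) ∈
        Lv F p i (R C.1 P.1)) := by
      rw [chi_eq_iff, chi_eq_iff, Sh_fst, R_Sh_fst]
      unfold U
      rw [c0_Sh, c1_Sh, c2_Sh, c0_R_Sh, c1_R_Sh, c2_R_Sh]
    unfold ind
    exact if_congr hiff rfl rfl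
  simp_rw [h1]
  rw [← Finset.sum_filter, Finset.sum_const, nsmul_eq_mul, mul_one]
  have h2 := count_le p hp (c0 p P) (c1 p P) (c2 p P) (c0 p (R C P)) (c1 p (R C P))
    (c2 p (R C P)) (Lv F p i P.1) (Lv F p i (R C.1 P.1))
  have h3 : (((Finset.univ.filter (fun γ : ZMod p × ZMod p × ZMod p =>
      (c1 p P + γ.2.1) + (c0 p P + γ.1) * (c2 p P + γ.2.2) ∈ Lv F p i P.1 ∧
      (c1 p (R C P) - γ.2.1) + (c0 p (R C P) - γ.1) * (c2 p (R C P) - γ.2.2) ∈
        Lv F p i (R C.1 P.1))).card : ℕ) : ℝ) ≤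
      p * (((Lv F p i P.1).card : ℝ) * ((Lv F p i (R C.1 P.1)).card : ℝ)) + p ^ 2 := by
    exact_mod_cast h2
  refine h3.trans ?_
  have h4 := card_Lv F p i P.1
  have h5 := card_Lv F p i (R C.1 P.1)
  have h6 : ((Lv F p i P.1).card : ℝ) * ((Lv F p i (R C.1 P.1)).card : ℝ) ≤
      (p * F.w i P.1 + 1) * (p * F.w i (R C.1 P.1) + 1) :=
    mul_le_mul h4 h5 (Nat.cast_nonneg _) ((Nat.cast_nonneg _).trans h4)
  calc _ ≤ p * ((p * F.w i P.1 + 1) * (p * F.w i (R C.1 P.1) + 1)) + (p : ℝ) ^ 2 := by gcongr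
    _ = _ := by
      unfold bd
      field_simp

theorem bd_le (i : Fin r) (C x : Γ) : bd F p i C x ≤ F.w i x * F.w i (R C x) + 4 / p := by
  have hp1 : (1 : ℝ) ≤ p := by exact_mod_cast (Fact.out : p.Prime).one_lt.le
  have hp0 : (0 : ℝ) < p := by linarith
  have h1 := w_le_one F i x
  have h2 := w_le_one F i (R C x)
  have h3 : 1 / (p : ℝ) ≤ 1 := by rw [div_le_one hp0]; exact hp1
  have h4 : 0 ≤ 1 / (p : ℝ) := by positivity
  have h5 : 4 / (p : ℝ) = 4 * (1 / p) := by ring
  unfold bd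
  rw [h5]
  nlinarith

section Meas
variable [MeasurableSpace (GK Γ p)] [BorelSpace (GK Γ p)]

theorem measurable_comp_pr (g : GK Γ p → AddCircle (p : ℝ)) (hg : Continuous g)
    [MeasurableSpace (ZMod p)] : Measurable (fun P => pr p (g P)) := by
  refine measurable_to_countable' (fun u => ?_)
  exact hg.measurable (measurableSet_pr p u)

theorem measurable_U : Measurable (fun P : GK Γ p => ((U p P).val : ℝ) / p) := by
  let _ : MeasurableSpace (ZMod p) := ⊤
  have : DiscreteMeasurableSpace (ZMod p) := ⟨fun _ => MeasurableSpace.measurableSet_top⟩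
  have h0 : Measurable (c0 (Γ := Γ) p) := measurable_comp_pr p _
    (continuous_toAdd.comp (continuous_fst.comp continuous_snd))
  have h1 : Measurable (c1 (Γ := Γ) p) := measurable_comp_pr p _
    (continuous_toAdd.comp (continuous_fst.comp (continuous_snd.comp continuous_snd)))
  have h2 : Measurable (c2 (Γ := Γ) p) := measurable_comp_pr p _
    (continuous_toAdd.comp (continuous_snd.comp (continuous_snd.comp continuous_snd)))
  have h3 : Measurable (fun P : GK Γ p => (c0 p P, c1 p P, c2 p P)) := h0.prodMk (h1.prodMk h2)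
  have h4 : Measurable (fun q : ZMod p × ZMod p × ZMod p => ((q.2.1 + q.1 * q.2.2).val : ℝ)) :=
    Measurable.of_discrete
  exact (h4.comp h3).div_const _

theorem measurable_chi : Measurable (chi F p) := by
  refine measurable_to_countable' fun i => ?_
  have h : chi F p ⁻¹' {i} = {P : GK Γ p | ps F.w i.val P.1 ≤ ((U p P).val : ℝ) / p} ∩
      {P : GK Γ p | ((U p P).val : ℝ) / p < ps F.w (i.val + 1) P.1} := by
    ext P
    show chi F p P = i ↔ _
    rw [chi_eq_iff]
    unfold Lv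
    simp
  rw [h]
  have h1 := measurable_U (Γ := Γ) p
  have h2 : ∀ j, Measurable fun P : GK Γ p => ps F.w j P.1 := fun j =>
    ((continuous_ps F j).comp continuous_fst).measurable
  exact (measurableSet_le (h2 _) h1).inter (measurableSet_lt h1 (h2 _))

theorem measure_bound [CompactSpace Γ] [MeasurableSpace Γ] [BorelSpace Γ] (hp : p ≠ 2) (μ : Measure (GK Γ p))
    [IsProbabilityMeasure μ] [μ.IsMulLeftInvariant] (i : Fin r) (C : GK Γ p) (c : ℝ)
    (hc : ∫ x, F.w i x * F.w i (R C.1 x) ∂(μ.map Prod.fst) ≤ c) :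
    μ.real {P | chi F p P = i ∧ chi F p (R C P) = i} ≤ c + 4 / p := by
  have hp0 : (0 : ℝ) < p := by exact_mod_cast (Fact.out : p.Prime).pos
  have hcR : Continuous (R C) := by
    unfold R
    fun_prop
  have hcR1 : Continuous (R C.1) := by
    unfold R
    fun_prop
  have hset : MeasurableSet {P | chi F p P = i ∧ chi F p (R C P) = i} := by
    have h1 := measurable_chi F p
    have h2 : Measurable (fun P => chi F p (R C P)) := h1.comp hcR.measurable
    exact (h1 (measurableSet_singleton i)).inter (h2 (measurableSet_singleton i))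
  have hind : ind F p i C = Set.indicator {P | chi F p P = i ∧ chi F p (R C P) = i} 1 := by
    classical
    ext P
    unfold ind
    rw [Set.indicator_apply]
    exact if_congr Iff.rfl rfl rfl
  have hint : Integrable (ind F p i C) μ := by
    rw [hind]
    exact (integrable_const (1 : ℝ)).indicator hset
  have hmeas : μ.real {P | chi F p P = i ∧ chi F p (R C P) = i} = ∫ P, ind F p i C P ∂μ := by
    rw [hind, integral_indicator_one hset]
  have hintS : ∀ γ, Integrable (fun P => ind F p i C (Sh Γ p γ * P)) μ := fun γ =>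
    hint.comp_mul_left (Sh Γ p γ)
  have havg : (p : ℝ) ^ 3 * ∫ P, ind F p i C P ∂μ =
      ∫ P, ∑ γ : ZMod p × ZMod p × ZMod p, ind F p i C (Sh Γ p γ * P) ∂μ := by
    rw [integral_finsetSum _ (fun γ _ => hintS γ)]
    simp_rw [integral_mul_left_eq_self (fun P => ind F p i C P)]
    rw [Finset.sum_const, Finset.card_univ, Fintype.card_prod, Fintype.card_prod, ZMod.card,
      nsmul_eq_mul]
    push_cast
    ring
  have hc1 : Continuous fun x : Γ => F.w i x * F.w i (R C.1 x) :=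
    (F.cont i).mul ((F.cont i).comp hcR1)
  have hFact : Fact (0 < (p : ℝ)) := ⟨hp0⟩
  have hc2 : Continuous fun P : GK Γ p => F.w i P.1 * F.w i (R C.1 P.1) + 4 / p :=
    (hc1.comp continuous_fst).add continuous_const
  have hle : ∫ P, ∑ γ : ZMod p × ZMod p × ZMod p, ind F p i C (Sh Γ p γ * P) ∂μ ≤
      ∫ P, (p : ℝ) ^ 3 * (F.w i P.1 * F.w i (R C.1 P.1) + 4 / p) ∂μ := by
    refine integral_mono (integrable_finsetSum _ (fun γ _ => hintS γ)) ?_
      (fun P => (sum_ind_le F p hp i C P).trans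
        (mul_le_mul_of_nonneg_left (bd_le F p i C.1 P.1) (by positivity)))
    exact (continuous_const.mul hc2).integrable_of_hasCompactSupport
      (HasCompactSupport.of_compactSpace _)
  rw [integral_const_mul] at hle
  have hle2 : ∫ P, ind F p i C P ∂μ ≤ ∫ P, (F.w i P.1 * F.w i (R C.1 P.1) + 4 / p) ∂μ := by
    rw [← havg] at hle
    exact le_of_mul_le_mul_left hle (by positivity)
  have hI : Integrable (fun P : GK Γ p => F.w i P.1 * F.w i (R C.1 P.1)) μ :=
    (hc1.comp continuous_fst).integrable_of_hasCompactSupport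
      (HasCompactSupport.of_compactSpace _)
  have hadd : ∫ P, (F.w i P.1 * F.w i (R C.1 P.1) + 4 / p) ∂μ =
      (∫ P : GK Γ p, F.w i P.1 * F.w i (R C.1 P.1) ∂μ) + 4 / p := by
    rw [integral_add hI (integrable_const _), integral_const, probReal_univ, one_smul]
  have hfst : Measurable (Prod.fst : GK Γ p → Γ) := continuous_fst.measurable
  have hpush : ∫ P : GK Γ p, F.w i P.1 * F.w i (R C.1 P.1) ∂μ =
      ∫ x, F.w i x * F.w i (R C.1 x) ∂(μ.map Prod.fst) := by
    rw [integral_map hfst.aemeasurable hc1.aestronglyMeasurable]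
  rw [hmeas]
  linarith

end Meas

end

end Pool.Agent.Helper39.OWN.Sym
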