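import Pool.Agent.Helper39.OWN.SymR

/-!
# Fractional colourings of powers of the group `G0` and the colouring theorem
-/

set_option autoImplicit false

namespace Pool.Agent.Helper39.OWN.Sym

open MeasureTheory Pool.Agent.Helper32.Sym

/-- The two half weights. -/
noncomputable def hw (b : Bool) (x : G0) : ℝ := (1 + (if b then 1 else -1) * f x) / 2

theorem hw_cont (b : Bool) : Continuous (hw b) := by
  unfold hw
  have := continuous_f
  fun_prop

theorem hw_nonneg (b : Bool) (x : G0) : 0 ≤ hw b x := by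
  have h := abs_le.1 (abs_f_le x)
  unfold hw
  split_ifs <;> linarith [h.1, h.2]

theorem hw_sum (x : G0) : ∑ b, hw b x = 1 := by
  rw [Fintype.sum_bool]
  unfold hw
  simp only [if_true, Bool.false_eq_true, if_false]
  ring

section
variable [MeasurableSpace G0] [BorelSpace G0] (ν : Measure G0) [IsProbabilityMeasure ν]
  [ν.IsMulLeftInvariant]

theorem hw_int (b : Bool) (C : G0) :
    ∫ x, hw b x * hw b (R C x) ∂ν ≤ (1 - 1 / 32768) / 4 := by
  set σ : ℝ := if b then 1 else -1 with hσ
  have hσ2 : σ * σ = 1 := by rw [hσ]; split_ifs <;> norm_num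
  have hexp : ∀ x : G0, hw b x * hw b (R C x) = 1 / 4 + (σ / 4) * f x +
      (σ / 4) * f (R C x) + (1 / 4) * (f x * f (R C x)) := by
    intro x
    show (1 + σ * f x) / 2 * ((1 + σ * f (R C x)) / 2) = _
    linear_combination (1 / 4) * f x * f (R C x) * hσ2
  have hI1 : Integrable f ν := integrable_of_continuous ν continuous_f
  have hI2 : Integrable (fun x => f (R C x)) ν :=
    integrable_of_continuous ν (continuous_f.comp (continuous_R C))
  have hI3 : Integrable (fun x => f x * f (R C x)) ν :=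
    integrable_of_continuous ν (continuous_f.mul (continuous_f.comp (continuous_R C)))
  have hval : ∫ x, hw b x * hw b (R C x) ∂ν = 1 / 4 + (1 / 4) * ∫ x, f x * f (R C x) ∂ν := by
    simp_rw [hexp]
    rw [integral_add, integral_add, integral_add, integral_const, probReal_univ, one_smul,
      integral_const_mul, integral_const_mul, integral_const_mul, integral_f, integral_f_R]
    · ring
    · exact integrable_const _
    · exact hI1.const_mul _
    · exact (integrable_const _).add (hI1.const_mul _)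
    · exact hI2.const_mul _
    · exact ((integrable_const _).add (hI1.const_mul _)).add (hI2.const_mul _)
    · exact hI3.const_mul _
  have h := integral_f_f_R ν C
  rw [hval]
  linarith

omit [ν.IsMulLeftInvariant] in
theorem hw_int_nonneg (b : Bool) (C : G0) : 0 ≤ ∫ x, hw b x * hw b (R C x) ∂ν :=
  integral_nonneg fun x => mul_nonneg (hw_nonneg b x) (hw_nonneg b _)

end

/-- The factor `(1 - 2^(-16))^m`. -/
noncomputable def bet (m : ℕ) : ℝ := (1 - 1 / 65536) ^ m

theorem bet_pos (m : ℕ) : 0 < bet m := by unfold bet; positivity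

theorem bet_le_one (m : ℕ) : bet m ≤ 1 := by
  unfold bet
  exact pow_le_one₀ (by norm_num) (by norm_num)

/-- The denominator. -/
noncomputable def DD (m q s : ℕ) : ℝ := 2 ^ m * q / bet m + s

theorem DD_pos (m q s : ℕ) (hq : 1 ≤ q) : 0 < DD m q s := by
  unfold DD
  have := bet_pos m
  have hq0 : (0 : ℝ) < q := by exact_mod_cast hq
  positivity

theorem DD_bound (m q s : ℕ) (hq : 1 ≤ q) (hs : s ≤ 2 ^ m) :
    1 / DD m q s ^ 2 ≤ bet m / ((2 ^ m * q + s : ℕ) : ℝ) ^ 2 := by
  have hβ := bet_pos m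
  have hβ1 := bet_le_one m
  have hD := DD_pos m q s hq
  have hq1 : (1 : ℝ) ≤ q := by exact_mod_cast hq
  have hs1 : (s : ℝ) ≤ 2 ^ m := by exact_mod_cast hs
  have hs0 : (0 : ℝ) ≤ s := Nat.cast_nonneg s
  set A : ℝ := 2 ^ m * q with hA
  have h2m : (0 : ℝ) < 2 ^ m := by positivity
  have hA0 : 0 < A := by rw [hA]; positivity
  have hsA : (s : ℝ) ≤ A := by rw [hA]; nlinarith
  have hr : ((2 ^ m * q + s : ℕ) : ℝ) = A + s := by push_cast; rw [hA]
  have hr0 : 0 < A + s := by linarith
  rw [hr, div_le_div_iff₀ (by positivity) (by positivity), one_mul]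
  have hDβ : DD m q s * bet m = A + s * bet m := by
    unfold DD
    field_simp
    rfl
  have h1 : bet m * DD m q s ^ 2 * bet m = (A + s * bet m) ^ 2 := by rw [← hDβ]; ring
  have h2 : (A + s) ^ 2 * bet m ≤ bet m * DD m q s ^ 2 * bet m := by
    rw [h1]
    have h3 : (A + s * bet m) ^ 2 - (A + s) ^ 2 * bet m =
        (1 - bet m) * (A ^ 2 - bet m * s ^ 2) := by ring
    have h4 : bet m * (s : ℝ) ^ 2 ≤ A ^ 2 := by
      have h5 : (s : ℝ) ^ 2 ≤ A ^ 2 := pow_le_pow_left₀ hs0 hsA 2
      have h6 : 0 ≤ (s : ℝ) ^ 2 := sq_nonneg _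
      nlinarith
    have h5 : 0 ≤ (1 - bet m) * (A ^ 2 - bet m * s ^ 2) :=
      mul_nonneg (by linarith) (by linarith)
    linarith
  exact le_of_mul_le_mul_right h2 hβ

/-- The colours. -/
abbrev II (m q s : ℕ) := ((Fin m → Bool) × Fin q) ⊕ Fin s

theorem card_II (m q s : ℕ) : Fintype.card (II m q s) = 2 ^ m * q + s := by
  simp [II]

/-- The weights. -/
noncomputable def WW (m q s : ℕ) : II m q s → (Fin m → G0) → ℝ
  | Sum.inl e, x => 2 ^ m / (bet m * DD m q s) * ∏ k, hw (e.1 k) (x k)
  | Sum.inr _, _ => 1 / DD m q s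

theorem WW_cont (m q s : ℕ) (i : II m q s) : Continuous (WW m q s i) := by
  rcases i with e | e
  · show Continuous fun x : Fin m → G0 => 2 ^ m / (bet m * DD m q s) * ∏ k, hw (e.1 k) (x k)
    exact continuous_const.mul (continuous_finsetProd _ fun k _ =>
      (hw_cont (e.1 k)).comp (continuous_apply k))
  · exact continuous_const

theorem WW_nonneg (m q s : ℕ) (hq : 1 ≤ q) (i : II m q s) (x : Fin m → G0) :
    0 ≤ WW m q s i x := by
  have hβ := bet_pos m
  have hD := DD_pos m q s hq
  rcases i with e | e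
  · show 0 ≤ 2 ^ m / (bet m * DD m q s) * ∏ k, hw (e.1 k) (x k)
    exact mul_nonneg (by positivity) (Finset.prod_nonneg fun k _ => hw_nonneg _ _)
  · show 0 ≤ 1 / DD m q s
    positivity

theorem prod_sum_hw (m : ℕ) (x : Fin m → G0) : ∑ e : Fin m → Bool, ∏ k, hw (e k) (x k) = 1 := by
  have h := Finset.prod_univ_sum (fun _ : Fin m => (Finset.univ : Finset Bool))
    (fun k b => hw b (x k))
  rw [Fintype.piFinset_univ] at h
  rw [← h]
  exact Finset.prod_eq_one fun k _ => hw_sum (x k)

theorem WW_sum (m q s : ℕ) (hq : 1 ≤ q) (x : Fin m → G0) : ∑ i, WW m q s i x = 1 := by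
  have hβ := bet_pos m
  have hD := DD_pos m q s hq
  rw [Fintype.sum_sum_type]
  have h1 : ∑ e : (Fin m → Bool) × Fin q, WW m q s (Sum.inl e) x =
      q * (2 ^ m / (bet m * DD m q s)) := by
    show ∑ e : (Fin m → Bool) × Fin q, 2 ^ m / (bet m * DD m q s) * ∏ k, hw (e.1 k) (x k) = _
    rw [← Finset.mul_sum, Fintype.sum_prod_type_right]
    simp only [prod_sum_hw]
    simp
    ring
  have h2 : ∑ e : Fin s, WW m q s (Sum.inr e) x = s * (1 / DD m q s) := by
    show ∑ _e : Fin s, 1 / DD m q s = _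
    simp
  rw [h1, h2]
  have h3 : q * (2 ^ m / (bet m * DD m q s)) + s * (1 / DD m q s) = DD m q s / DD m q s := by
    have h4 : DD m q s / DD m q s = (2 ^ m * q / bet m + s) / DD m q s := rfl
    rw [h4]
    field_simp
  rw [h3, div_self hD.ne']

section
variable [MeasurableSpace G0] [BorelSpace G0] (ν : Measure G0) [IsProbabilityMeasure ν]
  [ν.IsMulLeftInvariant]

theorem WW_int (m q s : ℕ) (hq : 1 ≤ q) (i : II m q s) (C : Fin m → G0) :
    ∫ x, WW m q s i x * WW m q s i (R C x) ∂(Measure.pi fun _ : Fin m => ν) ≤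
      1 / DD m q s ^ 2 := by
  have hβ := bet_pos m
  have hD := DD_pos m q s hq
  rcases i with e | e
  · have h1 : ∀ x : Fin m → G0, WW m q s (Sum.inl e) x * WW m q s (Sum.inl e) (R C x) =
        (2 ^ m / (bet m * DD m q s)) ^ 2 *
          ∏ k, (hw (e.1 k) (x k) * hw (e.1 k) (R (C k) (x k))) := by
      intro x
      rw [Finset.prod_mul_distrib]
      show (2 ^ m / (bet m * DD m q s) * ∏ k, hw (e.1 k) (x k)) *
        (2 ^ m / (bet m * DD m q s) * ∏ k, hw (e.1 k) (R (C k) (x k))) = _
      ring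
    simp_rw [h1]
    rw [integral_const_mul, integral_fintype_prod_eq_prod
      (f := fun (k : Fin m) (y : G0) => hw (e.1 k) y * hw (e.1 k) (R (C k) y))]
    have h2 : ∏ k : Fin m, ∫ y, hw (e.1 k) y * hw (e.1 k) (R (C k) y) ∂ν ≤
        ((1 - 1 / 32768) / 4) ^ m := by
      have := Finset.prod_le_prod (s := (Finset.univ : Finset (Fin m)))
        (fun k _ => hw_int_nonneg ν (e.1 k) (C k)) (fun k _ => hw_int ν (e.1 k) (C k))
      rwa [Finset.prod_const, Finset.card_univ, Fintype.card_fin] at this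
    have h3 : ((1 - 1 / 32768 : ℝ)) ^ m ≤ bet m ^ 2 := by
      unfold bet
      rw [← pow_mul, mul_comm m 2, pow_mul]
      exact pow_le_pow_left₀ (by norm_num) (by norm_num) m
    calc (2 ^ m / (bet m * DD m q s)) ^ 2 *
          ∏ k : Fin m, ∫ y, hw (e.1 k) y * hw (e.1 k) (R (C k) y) ∂ν
        ≤ (2 ^ m / (bet m * DD m q s)) ^ 2 * ((1 - 1 / 32768) / 4) ^ m :=
          mul_le_mul_of_nonneg_left h2 (by positivity)
      _ = (1 - 1 / 32768) ^ m / (bet m ^ 2 * DD m q s ^ 2) := by
          have h4 : ((2 : ℝ) ^ m) ^ 2 = 4 ^ m := by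
            rw [← pow_mul, mul_comm, pow_mul]; norm_num
          rw [div_pow, div_pow, h4]
          field_simp
      _ ≤ bet m ^ 2 / (bet m ^ 2 * DD m q s ^ 2) := by gcongr
      _ = 1 / DD m q s ^ 2 := by field_simp
  · have h1 : ∀ x : Fin m → G0, WW m q s (Sum.inr e) x * WW m q s (Sum.inr e) (R C x) =
        1 / DD m q s ^ 2 := by
      intro x
      show 1 / DD m q s * (1 / DD m q s) = _
      ring
    simp_rw [h1]
    rw [integral_const, probReal_univ, one_smul]

end

/-- The fractional colouring with `r = 2 ^ m * q + s` colours. -/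
noncomputable def FF (m q s r : ℕ) (hr : 2 ^ m * q + s = r) (hq : 1 ≤ q) :
    Frac (Fin m → G0) r where
  w := fun i => WW m q s ((Fintype.equivFinOfCardEq ((card_II m q s).trans hr)).symm i)
  cont := fun i => WW_cont m q s _
  nonneg := fun i x => WW_nonneg m q s hq _ x
  sum_one := fun x => by
    rw [Equiv.sum_comp (Fintype.equivFinOfCardEq ((card_II m q s).trans hr)).symm
      (fun i => WW m q s i x)]
    exact WW_sum m q s hq x

/-! ### homomorphisms -/

/-- The circle group is the circle of length `p`. -/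
noncomputable def cir (p : ℕ) (hp : (p : ℝ) ≠ 0) : Circle →* KK p where
  toFun z := Multiplicative.ofAdd ((AddCircle.homeomorphCircle hp).symm z)
  map_one' := by
    have h : (AddCircle.homeomorphCircle hp).symm 1 = 0 := by
      rw [Homeomorph.symm_apply_eq, AddCircle.homeomorphCircle_apply]
      simp
    rw [h]
    rfl
  map_mul' a b := by
    have h : (AddCircle.homeomorphCircle hp).symm (a * b) =
        (AddCircle.homeomorphCircle hp).symm a + (AddCircle.homeomorphCircle hp).symm b := by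
      rw [Homeomorph.symm_apply_eq, AddCircle.homeomorphCircle_apply, AddCircle.toCircle_add,
        ← AddCircle.homeomorphCircle_apply hp, ← AddCircle.homeomorphCircle_apply hp,
        Homeomorph.apply_symm_apply, Homeomorph.apply_symm_apply]
    rw [h]
    rfl

theorem cir_cont (p : ℕ) (hp : (p : ℝ) ≠ 0) : Continuous (cir p hp) :=
  continuous_ofAdd.comp (AddCircle.homeomorphCircle hp).symm.continuous

theorem cir_surj (p : ℕ) (hp : (p : ℝ) ≠ 0) : Function.Surjective (cir p hp) := by
  intro y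
  refine ⟨AddCircle.homeomorphCircle hp (Multiplicative.toAdd y), ?_⟩
  show Multiplicative.ofAdd ((AddCircle.homeomorphCircle hp).symm
    (AddCircle.homeomorphCircle hp (Multiplicative.toAdd y))) = y
  rw [Homeomorph.symm_apply_apply]
  rfl

/-- Three circles. -/
noncomputable def cir3 (p : ℕ) (hp : (p : ℝ) ≠ 0) :
    (Fin 3 → Circle) →* (KK p × KK p × KK p) where
  toFun z := (cir p hp (z 0), cir p hp (z 1), cir p hp (z 2))
  map_one' := by simp
  map_mul' a b := by simp

theorem cir3_cont (p : ℕ) (hp : (p : ℝ) ≠ 0) : Continuous (cir3 p hp) :=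
  ((cir_cont p hp).comp (continuous_apply 0)).prodMk
    (((cir_cont p hp).comp (continuous_apply 1)).prodMk
      ((cir_cont p hp).comp (continuous_apply 2)))

theorem cir3_surj (p : ℕ) (hp : (p : ℝ) ≠ 0) : Function.Surjective (cir3 p hp) := by
  rintro ⟨a, b, c⟩
  obtain ⟨a', ha⟩ := cir_surj p hp a
  obtain ⟨b', hb⟩ := cir_surj p hp b
  obtain ⟨c', hc⟩ := cir_surj p hp c
  refine ⟨![a', b', c'], ?_⟩
  show (cir p hp a', cir p hp b', cir p hp c') = (a, b, c)
  rw [ha, hb, hc]

/-- The indices of the coordinates. -/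
abbrev JJ (m : ℕ) := Fin m × (Fin 16 ⊕ (Fin 16 ⊕ Unit))

theorem card_JJ (m : ℕ) : Fintype.card (JJ m) = 33 * m := by
  simp [JJ]
  ring

/-- Regrouping of coordinates. -/
noncomputable def grp {N m : ℕ} (ι : JJ m → Fin N) : (Fin N → S) →* (Fin m → G0) where
  toFun z := fun k => (fun i => z (ι (k, Sum.inl i)), fun j => z (ι (k, Sum.inr (Sum.inl j))),
    z (ι (k, Sum.inr (Sum.inr ()))))
  map_one' := rfl
  map_mul' a b := rfl

theorem grp_cont {N m : ℕ} (ι : JJ m → Fin N) : Continuous (grp ι) := by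
  refine continuous_pi fun k => ?_
  exact (continuous_pi fun i => continuous_apply _).prodMk
    ((continuous_pi fun i => continuous_apply _).prodMk (continuous_apply _))

theorem grp_surj {N m : ℕ} (ι : JJ m → Fin N) (hι : Function.Injective ι) :
    Function.Surjective (grp ι) := by
  intro y
  obtain ⟨z, hz⟩ := hι.surjective_comp_right
    (fun j : JJ m => match j with
      | (k, Sum.inl i) => (y k).1 i
      | (k, Sum.inr (Sum.inl i)) => (y k).2.1 i
      | (k, Sum.inr (Sum.inr _)) => (y k).2.2)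
  refine ⟨z, ?_⟩
  funext k
  refine Prod.ext (funext fun i => ?_) (Prod.ext (funext fun i => ?_) ?_)
  · exact congrFun hz (k, Sum.inl i)
  · exact congrFun hz (k, Sum.inr (Sum.inl i))
  · exact congrFun hz (k, Sum.inr (Sum.inr ()))

theorem secondCountable_S : SecondCountableTopology S := by
  have : ProperSpace (Quaternion ℝ) := FiniteDimensional.proper_real _
  infer_instance

/-- The normalized Haar measure. -/
noncomputable abbrev hr (H : Type*) [Group H] [TopologicalSpace H] [IsTopologicalGroup H]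
    [CompactSpace H] [MeasurableSpace H] [BorelSpace H] : Measure H :=
  Measure.haarMeasure (⊤ : TopologicalSpace.PositiveCompacts H)

theorem hr_prob (H : Type*) [Group H] [TopologicalSpace H] [IsTopologicalGroup H]
    [CompactSpace H] [MeasurableSpace H] [BorelSpace H] : IsProbabilityMeasure (hr H) := by
  constructor
  have := Measure.haarMeasure_self (K₀ := (⊤ : TopologicalSpace.PositiveCompacts H))
  simpa using this

section
variable {H : Type*} [Group H] [TopologicalSpace H] [IsTopologicalGroup H]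
    [CompactSpace H] [MeasurableSpace H] [BorelSpace H]

/-- Transport of the bound to `H`. -/
theorem push {Γ : Type} [Group Γ] [TopologicalSpace Γ] [IsTopologicalGroup Γ] [CompactSpace Γ]
    [MeasurableSpace Γ] [BorelSpace Γ] (p : ℕ) [Fact p.Prime] [MeasurableSpace (GK Γ p)]
    [BorelSpace (GK Γ p)] {r : ℕ} (F : Frac Γ r) (hp : p ≠ 2) (ρ : H →* GK Γ p)
    (hρc : Continuous ρ) (hρs : Function.Surjective ρ) (i : Fin r) (c : ℝ)
    (hc : ∀ C : Γ, ∫ x, F.w i x * F.w i (R C x) ∂((hr H).map fun x => (ρ x).1) ≤ c) (g : H) :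
    (hr H).real {x | chi F p (ρ x) = i ∧ chi F p (ρ (g * x⁻¹ * g)) = i} ≤ c + 4 / p := by
  have hprob := hr_prob H
  have hprob' : IsProbabilityMeasure ((hr H).map ρ) :=
    Measure.isProbabilityMeasure_map hρc.measurable.aemeasurable
  have hinv' : ((hr H).map ρ).IsMulLeftInvariant :=
    isMulLeftInvariant_map ρ.toMulHom hρc.measurable hρs
  have hb := measure_bound F p hp ((hr H).map ρ) i (ρ g) c (by
    rw [Measure.map_map continuous_fst.measurable hρc.measurable]
    exact hc _)
  have hcR : Continuous (R (ρ g)) := by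
    unfold R
    fun_prop
  have hset : MeasurableSet {P | chi F p P = i ∧ chi F p (R (ρ g) P) = i} := by
    have h1 := measurable_chi F p
    have h2 : Measurable (fun P => chi F p (R (ρ g) P)) := h1.comp hcR.measurable
    exact (h1 (measurableSet_singleton i)).inter (h2 (measurableSet_singleton i))
  have hpre : {x | chi F p (ρ x) = i ∧ chi F p (ρ (g * x⁻¹ * g)) = i} =
      ρ ⁻¹' {P | chi F p P = i ∧ chi F p (R (ρ g) P) = i} := by
    ext x
    show _ ↔ chi F p (ρ x) = i ∧ chi F p (ρ g * (ρ x)⁻¹ * ρ g) = i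
    rw [← map_inv, ← map_mul, ← map_mul]
    exact Iff.rfl
  rw [hpre, ← map_measureReal_apply hρc.measurable hset]
  exact hb

/-- The marginal is a product measure. -/
theorem marg [MeasurableSpace G0] [BorelSpace G0] (m : ℕ) (φ : H →* (Fin m → G0))
    (hφ : Continuous φ) (hs : Function.Surjective φ) :
    (hr H).map φ = Measure.pi fun _ : Fin m => hr G0 := by
  have := secondCountable_S
  have hprob := hr_prob H
  have hprob0 := hr_prob G0
  have h3 : ((hr H).map φ).IsHaarMeasure :=
    Measure.isHaarMeasure_map_of_isFiniteMeasure (hr H) φ hφ hs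
  have h4 : IsProbabilityMeasure ((hr H).map φ) :=
    Measure.isProbabilityMeasure_map hφ.measurable.aemeasurable
  have h5 : (Measure.pi fun _ : Fin m => hr G0).IsHaarMeasure := Measure.pi.isHaarMeasure _
  exact Measure.isHaarMeasure_eq_of_isProbabilityMeasure _ _

/-- The homomorphism to the group with the colouring. -/
noncomputable def rho (n m : ℕ) (ι : JJ m → Fin (33 * n)) (p : ℕ) (hp : (p : ℝ) ≠ 0)
    (π : H →* (Fin (33 * n) → S) × (Fin 3 → Circle)) : H →* GK (Fin m → G0) p :=
  ((grp ι).prodMap (cir3 p hp)).comp π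

theorem rho_cont (n m : ℕ) (ι : JJ m → Fin (33 * n)) (p : ℕ) (hp : (p : ℝ) ≠ 0)
    (π : H →* (Fin (33 * n) → S) × (Fin 3 → Circle)) (hπ : Continuous π) :
    Continuous (rho n m ι p hp π) :=
  (((grp_cont ι).comp continuous_fst).prodMk ((cir3_cont p hp).comp continuous_snd)).comp hπ

theorem rho_surj (n m : ℕ) (ι : JJ m → Fin (33 * n)) (hι : Function.Injective ι) (p : ℕ)
    (hp : (p : ℝ) ≠ 0) (π : H →* (Fin (33 * n) → S) × (Fin 3 → Circle))
    (hs : Function.Surjective π) : Function.Surjective (rho n m ι p hp π) :=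
  (Function.Surjective.prodMap (grp_surj ι hι) (cir3_surj p hp)).comp hs

/-- The bound for the fractional colouring `FF`. -/
theorem FF_bound [MeasurableSpace G0] [BorelSpace G0] (m q s r : ℕ) (hrs : 2 ^ m * q + s = r)
    (hq : 1 ≤ q) (p : ℕ) (ρ : H →* GK (Fin m → G0) p)
    (hρc : Continuous ρ) (hρs : Function.Surjective ρ) (i : Fin r) (C : Fin m → G0) :
    ∫ x, (FF m q s r hrs hq).w i x * (FF m q s r hrs hq).w i (R C x)
      ∂((hr H).map fun x => (ρ x).1) ≤ 1 / DD m q s ^ 2 := by
  have hprob0 := hr_prob G0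
  have h := marg m ((MonoidHom.fst (Fin m → G0) (KK p × KK p × KK p)).comp ρ)
    (continuous_fst.comp hρc) (Prod.fst_surjective.comp hρs)
  have h2 : ((hr H).map fun x => (ρ x).1) = Measure.pi fun _ : Fin m => hr G0 := h
  rw [h2]
  exact WW_int (hr G0) m q s hq _ C

theorem colouring_aux [MeasurableSpace G0] [BorelSpace G0] (m q s r : ℕ)
    (hrs : 2 ^ m * q + s = r) (hq : 1 ≤ q) (hs : s ≤ 2 ^ m) (p : ℕ) [Fact p.Prime]
    [MeasurableSpace (GK (Fin m → G0) p)] [BorelSpace (GK (Fin m → G0) p)]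
    (hp2 : p ≠ 2) (ρ : H →* GK (Fin m → G0) p)
    (hρc : Continuous ρ) (hρs : Function.Surjective ρ) :
    ∃ χ : H → Fin r, Measurable χ ∧ ∀ (i : Fin r) (g : H),
      (hr H).real {x | χ x = i ∧ χ (g * x⁻¹ * g) = i} ≤ bet m / (r : ℝ) ^ 2 + 4 / p := by
  refine ⟨fun x => chi (FF m q s r hrs hq) p (ρ x),
    (measurable_chi _ p).comp hρc.measurable, fun i g => ?_⟩
  have h1 := push p (FF m q s r hrs hq) hp2 ρ hρc hρs i (1 / DD m q s ^ 2)
    (fun C => FF_bound m q s r hrs hq p ρ hρc hρs i C) g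
  have h2 := DD_bound m q s hq hs
  rw [hrs] at h2
  linarith

/-- The colouring theorem. -/
theorem colouring (n r : ℕ) (hr1 : 1 ≤ r)
    (π : H →* (Fin (33 * n) → S) × (Fin 3 → Circle)) (hπ : Continuous π)
    (hs : Function.Surjective π) (p : ℕ) (hp : p.Prime) (hp2 : p ≠ 2) :
    ∃ χ : H → Fin r, Measurable χ ∧ ∀ (i : Fin r) (g : H),
      (hr H).real {x | χ x = i ∧ χ (g * x⁻¹ * g) = i} ≤
      (1 - 1 / 65536) ^ (min n (Nat.log 2 r)) / (r : ℝ) ^ 2 + 4 / p := by
  have hfact : Fact p.Prime := ⟨hp⟩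
  have hp0 : (p : ℝ) ≠ 0 := by exact_mod_cast hp.ne_zero
  obtain ⟨m, hm⟩ : ∃ m, m = min n (Nat.log 2 r) := ⟨_, rfl⟩
  rw [← hm]
  have hmn : m ≤ n := hm ▸ min_le_left _ _
  have hml : m ≤ Nat.log 2 r := hm ▸ min_le_right _ _
  have h2m : 2 ^ m ≤ r :=
    (Nat.pow_le_pow_right (by norm_num) hml).trans (Nat.pow_log_le_self 2 (by omega))
  obtain ⟨ι⟩ : Nonempty (JJ m ↪ Fin (33 * n)) :=
    Function.Embedding.nonempty_of_card_le (by rw [card_JJ, Fintype.card_fin]; omega)
  have hq : 1 ≤ r / 2 ^ m := (Nat.one_le_div_iff (by positivity)).2 h2m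
  have hrs : 2 ^ m * (r / 2 ^ m) + r % 2 ^ m = r := Nat.div_add_mod _ _
  have hsm : r % 2 ^ m ≤ 2 ^ m := (Nat.mod_lt _ (by positivity)).le
  letI : MeasurableSpace G0 := borel G0
  haveI : BorelSpace G0 := ⟨rfl⟩
  letI : MeasurableSpace (GK (Fin m → G0) p) := borel (GK (Fin m → G0) p)
  haveI : BorelSpace (GK (Fin m → G0) p) := ⟨rfl⟩
  exact colouring_aux m (r / 2 ^ m) (r % 2 ^ m) r hrs hq hsm p hp2 (rho n m ι p hp0 π)
    (rho_cont n m ι p hp0 π hπ) (rho_surj n m ι ι.injective p hp0 π hs)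

end

end Pool.Agent.Helper39.OWN.Sym
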